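import Mathlib

/-!
# DS/Part: partitions and the polymatroid lemma

Partitions of finite sets, and integral vectors below an intersecting submodular function.
-/

set_option autoImplicit false

open scoped BigOperators

namespace DS

/-- `P` is a partition of `S` into nonempty sets. -/
structure IsPart {E : Type} (P : Finset (Finset E)) (S : Finset E) : Prop where
  ne : ∀ B ∈ P, B.Nonempty
  disj : ∀ B ∈ P, ∀ C ∈ P, ∀ i, i ∈ B → i ∈ C → B = C
  un : ∀ i, i ∈ S ↔ ∃ B ∈ P, i ∈ B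

section basic

variable {E : Type}

theorem IsPart.empty : IsPart (∅ : Finset (Finset E)) ∅ :=
  ⟨by simp, by simp, by simp⟩

theorem IsPart.single {S : Finset E} (h : S.Nonempty) : IsPart {S} S :=
  ⟨by simpa using h, by simp, by simp⟩

theorem IsPart.subset {P : Finset (Finset E)} {S : Finset E} (hP : IsPart P S) {B : Finset E}
    (hB : B ∈ P) : B ⊆ S := fun i hi => (hP.un i).2 ⟨B, hB, hi⟩

/-- Two partitions of disjoint sets. -/
theorem IsPart.union [DecidableEq E] {P Q : Finset (Finset E)} {S T : Finset E} (hP : IsPart P S)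
    (hQ : IsPart Q T) (h : Disjoint S T) : IsPart (P ∪ Q) (S ∪ T) ∧ Disjoint P Q := by
  have hST : ∀ i, i ∈ S → i ∈ T → False := fun i h1 h2 => Finset.disjoint_left.1 h h1 h2
  refine ⟨⟨?_, ?_, ?_⟩, ?_⟩
  · intro B hB
    rcases Finset.mem_union.1 hB with hB | hB
    · exact hP.ne B hB
    · exact hQ.ne B hB
  · intro B hB C hC i hi hi'
    rcases Finset.mem_union.1 hB with hB | hB <;> rcases Finset.mem_union.1 hC with hC | hC
    · exact hP.disj B hB C hC i hi hi'
    · exact (hST i (hP.subset hB hi) (hQ.subset hC hi')).elim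
    · exact (hST i (hP.subset hC hi') (hQ.subset hB hi)).elim
    · exact hQ.disj B hB C hC i hi hi'
  · intro i
    rw [Finset.mem_union, hP.un, hQ.un]
    constructor
    · rintro (⟨B, hB, hi⟩ | ⟨B, hB, hi⟩)
      · exact ⟨B, Finset.mem_union_left Q hB, hi⟩
      · exact ⟨B, Finset.mem_union_right P hB, hi⟩
    · rintro ⟨B, hB, hi⟩
      rcases Finset.mem_union.1 hB with hB | hB
      · exact Or.inl ⟨B, hB, hi⟩
      · exact Or.inr ⟨B, hB, hi⟩
  · rw [Finset.disjoint_left]
    intro B hB hB'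
    obtain ⟨i, hi⟩ := hP.ne B hB
    exact hST i (hP.subset hB hi) (hQ.subset hB' hi)

theorem IsPart.sum {R : Type} [AddCommMonoid R] {P : Finset (Finset E)} {S : Finset E}
    (hP : IsPart P S) (a : E → R) : ∑ B ∈ P, ∑ i ∈ B, a i = ∑ i ∈ S, a i := by
  classical
  have h1 : S = P.biUnion id := by
    ext i
    rw [hP.un, Finset.mem_biUnion]
    rfl
  rw [h1, Finset.sum_biUnion]
  · rfl
  · intro B hB C hC hBC
    change Disjoint B C
    rw [Finset.disjoint_left]
    intro i hi hi'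
    exact hBC (hP.disj B (Finset.mem_coe.1 hB) C (Finset.mem_coe.1 hC) i hi hi')

end basic

variable {E : Type} [DecidableEq E]

/-- **Polymatroid lemma.** Let `g` be intersecting submodular and nonnegative on the nonempty
subsets of `G`, and `T ≤ ∑_{B ∈ P} g B` for all partitions `P` of `G`. Then there is an integral
`a ≥ 0` with `a(S) ≤ g(S)` for all nonempty `S ⊆ G` and `a(G) = T`.

Proof. Among the `a : E → ℕ` with `a i = 0` for `i ∉ G`, `a(S) ≤ g(S)` for the nonempty `S ⊆ G` and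
`a(G) ≤ T` (`a = 0` is one of them) choose one with `a(G)` maximal (bounded by `T`). Suppose
`a(G) < T`. For `i ∈ G` the vector `a + 1_i` violates one of the inequalities, so there is a tight set
`S ∋ i`, `a(S) = g(S)`. If `S, S'` are tight and `S ∩ S' ≠ ∅` then `S ∪ S'` is tight:
`a(S) + a(S') = g(S) + g(S') ≥ g(S ∪ S') + g(S ∩ S') ≥ a(S ∪ S') + a(S ∩ S')`. Hence the inclusion
maximal tight sets form a partition `P` of `G`, and
`T ≤ ∑_{B ∈ P} g B = ∑_{B ∈ P} a(B) = a(G) < T`, a contradiction. -/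
theorem exists_poly (g : Finset E → ℤ) (G : Finset E) (T : ℕ)
    (h0 : ∀ S ⊆ G, S.Nonempty → 0 ≤ g S)
    (hsub : ∀ S ⊆ G, ∀ S' ⊆ G, (S ∩ S').Nonempty → g (S ∪ S') + g (S ∩ S') ≤ g S + g S')
    (hT : ∀ P, IsPart P G → (T : ℤ) ≤ ∑ B ∈ P, g B) :
    ∃ a : E → ℕ, (∀ i, i ∉ G → a i = 0) ∧
      (∀ S ⊆ G, S.Nonempty → ∑ i ∈ S, (a i : ℤ) ≤ g S) ∧ ∑ i ∈ G, a i = T := by
  suffices h : ∀ k ≤ T, ∃ a : E → ℕ, (∀ i, i ∉ G → a i = 0) ∧
      (∀ S ⊆ G, S.Nonempty → ∑ i ∈ S, (a i : ℤ) ≤ g S) ∧ ∑ i ∈ G, a i = k from h T le_rfl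
  intro k
  induction k with
  | zero =>
    intro _
    exact ⟨fun _ => 0, fun _ _ => rfl, fun S hS hne => by simpa using h0 S hS hne, by simp⟩
  | succ k ih =>
    intro hk
    obtain ⟨a, ha0, ha1, ha2⟩ := ih (by omega)
    by_contra hcon
    -- each `i ∈ G` lies in a tight set
    have htight : ∀ i ∈ G, ∃ S ⊆ G, i ∈ S ∧ ∑ j ∈ S, (a j : ℤ) = g S := by
      intro i hi
      by_contra hno
      push Not at hno
      apply hcon
      refine ⟨fun j => a j + if j = i then 1 else 0, ?_, ?_, ?_⟩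
      · intro j hj
        have h1 : j ≠ i := fun h => hj (h ▸ hi)
        simp [h1, ha0 j hj]
      · intro S hS hne
        have h3 : ∑ j ∈ S, (((a j + if j = i then 1 else 0 : ℕ)) : ℤ) =
            ∑ j ∈ S, (a j : ℤ) + if i ∈ S then 1 else 0 := by
          push_cast
          rw [Finset.sum_add_distrib, Finset.sum_ite_eq']
        rw [h3]
        have h1 := ha1 S hS hne
        by_cases hiS : i ∈ S
        · have h2 := hno S hS hiS
          rw [if_pos hiS]
          have h4 := lt_of_le_of_ne h1 h2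
          omega
        · rw [if_neg hiS]
          omega
      · rw [Finset.sum_add_distrib, Finset.sum_ite_eq', if_pos hi, ha2]
    -- unions of intersecting tight sets are tight
    have hun : ∀ S ⊆ G, ∀ S' ⊆ G, (S ∩ S').Nonempty → ∑ j ∈ S, (a j : ℤ) = g S →
        ∑ j ∈ S', (a j : ℤ) = g S' → ∑ j ∈ S ∪ S', (a j : ℤ) = g (S ∪ S') := by
      intro S hS S' hS' hne h1 h2
      have h3 := hsub S hS S' hS' hne
      have h4 := Finset.sum_union_inter (s₁ := S) (s₂ := S') (f := fun j => (a j : ℤ))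
      have h5 := ha1 (S ∩ S') (Finset.inter_subset_left.trans hS) hne
      have h6 := ha1 (S ∪ S') (Finset.union_subset hS hS')
        (hne.mono (Finset.inter_subset_left.trans Finset.subset_union_left))
      linarith
    have hmax : ∀ i ∈ G, ∃ S ⊆ G, i ∈ S ∧ ∑ j ∈ S, (a j : ℤ) = g S ∧
        ∀ S' ⊆ G, i ∈ S' → ∑ j ∈ S', (a j : ℤ) = g S' → S' ⊆ S := by
      intro i hi
      obtain ⟨S₀, hS₀, hi₀, ht₀⟩ := htight i hi
      obtain ⟨S, hS, hSm⟩ := Finset.exists_max_image
        (G.powerset.filter fun S => i ∈ S ∧ ∑ j ∈ S, (a j : ℤ) = g S) Finset.card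
        ⟨S₀, Finset.mem_filter.2 ⟨Finset.mem_powerset.2 hS₀, hi₀, ht₀⟩⟩
      obtain ⟨h1, h2, h3⟩ := Finset.mem_filter.1 hS
      have h1 := Finset.mem_powerset.1 h1
      refine ⟨S, h1, h2, h3, fun S' hS' hi' ht' => ?_⟩
      have h4 := hun S h1 S' hS' ⟨i, Finset.mem_inter.2 ⟨h2, hi'⟩⟩ h3 ht'
      have h5 := hSm (S ∪ S') (Finset.mem_filter.2 ⟨Finset.mem_powerset.2
        (Finset.union_subset h1 hS'), Finset.mem_union_left _ h2, h4⟩)
      have h6 := Finset.eq_of_subset_of_card_le (Finset.subset_union_left (s₁ := S) (s₂ := S')) h5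
      rw [h6]
      exact Finset.subset_union_right
    choose! M hM1 hM2 hM3 hM4 using hmax
    have heq : ∀ i ∈ G, ∀ j ∈ M i, M j = M i := by
      intro i hi j hj
      have hjG : j ∈ G := hM1 i hi hj
      have h1 : M i ⊆ M j := hM4 j hjG (M i) (hM1 i hi) hj (hM3 i hi)
      have h2 : M j ⊆ M i := hM4 i hi (M j) (hM1 j hjG) (h1 (hM2 i hi)) (hM3 j hjG)
      exact h2.antisymm h1
    have hP : IsPart (G.image M) G := by
      refine ⟨?_, ?_, ?_⟩
      · intro B hB
        obtain ⟨i, hi, rfl⟩ := Finset.mem_image.1 hB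
        exact ⟨i, hM2 i hi⟩
      · intro B hB C hC x hxB hxC
        obtain ⟨i, hi, rfl⟩ := Finset.mem_image.1 hB
        obtain ⟨j, hj, rfl⟩ := Finset.mem_image.1 hC
        rw [← heq i hi x hxB, ← heq j hj x hxC]
      · intro x
        refine ⟨fun hx => ⟨M x, Finset.mem_image_of_mem M hx, hM2 x hx⟩, ?_⟩
        rintro ⟨B, hB, hx⟩
        obtain ⟨i, hi, rfl⟩ := Finset.mem_image.1 hB
        exact hM1 i hi hx
    have h1 := hT _ hP
    have h2 : ∑ B ∈ G.image M, g B = ∑ B ∈ G.image M, ∑ j ∈ B, (a j : ℤ) := by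
      refine Finset.sum_congr rfl fun B hB => ?_
      obtain ⟨i, hi, rfl⟩ := Finset.mem_image.1 hB
      exact (hM3 i hi).symm
    rw [h2, hP.sum (fun j => (a j : ℤ))] at h1
    have h3 : ∑ j ∈ G, (a j : ℤ) = (k : ℤ) := by
      rw [← ha2]
      push_cast
      rfl
    rw [h3] at h1
    omega

end DS
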