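import Pool.Agent.Lib.MP_23b606_ag.DS.Sys
import Pool.Agent.Lib.MP_23b606_ag.DS.Part

/-!
# DS/Circ: the circuit of a partition
-/

set_option autoImplicit false

open scoped BigOperators

namespace DS

open T1

variable {ι : Type} [Fintype ι]

open Classical in
/-- The one parameter group of a part: `nn B (e_i) = [some i ∈ B] - [none ∈ B]`. -/
noncomputable def nn (B : Finset (Option ι)) : (ι → ℤ) →+ ℤ :=
  ∑ i, ((if some i ∈ B then (1 : ℤ) else 0) - if none ∈ B then 1 else 0) •
    (Pi.evalAddMonoidHom (fun _ : ι => ℤ) i)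

open Classical in
theorem nn_pt (B : Finset (Option ι)) (N : ℕ) (o : Option ι) :
    nn B (N • pt o) = (N : ℤ) * ((if o ∈ B then (1 : ℤ) else 0) - if none ∈ B then 1 else 0) := by
  rw [map_nsmul, nsmul_eq_mul]
  congr 1
  cases o with
  | none => rw [pt_none, map_zero, sub_self]
  | some j =>
    unfold nn
    rw [AddMonoidHom.finsetSum_apply, Finset.sum_eq_single j]
    · rw [AddMonoidHom.smul_apply, Pi.evalAddMonoidHom_apply, pt_some, Pi.single_eq_same,
        smul_eq_mul, mul_one]
    · intro i _ hi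
      rw [AddMonoidHom.smul_apply, Pi.evalAddMonoidHom_apply, pt_some, Pi.single_eq_of_ne hi,
        smul_zero]
    · intro h
      exact absurd (Finset.mem_univ j) h

open Classical in
theorem hm_fr_ge {N : ℕ} (hN : 1 ≤ N) {c : Option ι → ℂ} (hc : c ≠ 0) (B : Finset (Option ι)) :
    -((N : ℤ) * if none ∈ B then 1 else 0) ≤ hm (fr N c) (nn B) := by
  obtain ⟨m, hm1, hm2⟩ := exists_eq_hm (fr N c) (fr_ne_zero hN hc) (nn B)
  obtain ⟨o, -, rfl⟩ := (mem_fr_support hN c m).1 hm1
  rw [← hm2, nn_pt, mul_sub, neg_eq_zero_sub]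
  refine sub_le_sub_right ?_ _
  refine mul_nonneg (Int.natCast_nonneg _) ?_
  split_ifs
  · exact zero_le_one
  · exact le_refl 0

open Classical in
/-- For a relation with support in the part `B₀`. -/
theorem hm_fr_eq {N : ℕ} (hN : 1 ≤ N) {c : Option ι → ℂ} (hc : c ≠ 0)
    {P : Finset (Finset (Option ι))} (hP : IsPart P Finset.univ) {B0 : Finset (Option ι)}
    (h0 : B0 ∈ P) (hs : ∀ o, c o ≠ 0 → o ∈ B0) {B : Finset (Option ι)} (hB : B ∈ P) :
    hm (fr N c) (nn B) =
      (N : ℤ) * ((if B = B0 then (1 : ℤ) else 0) - if none ∈ B then 1 else 0) := by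
  obtain ⟨m, hm1, hm2⟩ := exists_eq_hm (fr N c) (fr_ne_zero hN hc) (nn B)
  obtain ⟨o, ho, rfl⟩ := (mem_fr_support hN c m).1 hm1
  rw [← hm2, nn_pt]
  have h1 : o ∈ B ↔ B = B0 :=
    ⟨fun h => hP.disj B hB B0 h0 o h (hs o ho), fun h => h ▸ hs o ho⟩
  simp only [h1]

/-- `hm (fr N c) (nn B)` is a multiple of `N`. -/
theorem dvd_hm_fr {N : ℕ} (hN : 1 ≤ N) (c : Option ι → ℂ) (B : Finset (Option ι)) :
    (N : ℤ) ∣ hm (fr N c) (nn B) := by
  by_cases hc : c = 0
  · have h1 : fr N c = 0 := by
      unfold fr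
      refine Finset.sum_eq_zero fun o _ => ?_
      rw [hc, Pi.zero_apply, Finsupp.single_zero]
    unfold hm
    rw [h1, dif_neg (by simp)]
    exact dvd_zero _
  · obtain ⟨m, hm1, hm2⟩ := exists_eq_hm (fr N c) (fr_ne_zero hN hc) (nn B)
    obtain ⟨o, -, rfl⟩ := (mem_fr_support hN c m).1 hm1
    rw [← hm2, nn_pt]
    exact dvd_mul_right _ _

/-- Hence the degrees of the equations are multiples of `N`. -/
theorem dvd_dd_fr {N : ℕ} (hN : 1 ≤ N) (c : Option ι → ℂ) (P : Finset (Finset (Option ι))) :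
    N ∣ dd (fr N c) (fun B : P => nn (B : Finset (Option ι))) (fun _ => 1) := by
  unfold dd
  have h1 : (N : ℤ) ∣ -∑ B : P, ((1 : ℕ) : ℤ) * hm (fr N c) (nn (B : Finset (Option ι))) := by
    rw [dvd_neg]
    exact Finset.dvd_sum fun B _ => Dvd.dvd.mul_left (dvd_hm_fr hN c B) _
  rcases le_total 0 (-∑ B : P, ((1 : ℕ) : ℤ) * hm (fr N c) (nn (B : Finset (Option ι)))) with h | h
  · rw [← Int.natCast_dvd_natCast, Int.toNat_of_nonneg h]
    exact h1
  · rw [Int.toNat_of_nonpos h]
    exact dvd_zero _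

open Classical in
private theorem circ_sum {P : Finset (Finset (Option ι))} (hP : IsPart P Finset.univ)
    (o : Option ι) : ∃ B0 : P, o ∈ (B0 : Finset (Option ι)) ∧ ∀ μ : P → ℤ,
      ∑ B : P, μ B * (if o ∈ (B : Finset (Option ι)) then (1 : ℤ) else 0) = μ B0 := by
  obtain ⟨B0, h0, ho⟩ := (hP.un o).1 (Finset.mem_univ o)
  refine ⟨⟨B0, h0⟩, ho, fun μ => ?_⟩
  rw [Finset.sum_eq_single ⟨B0, h0⟩]
  · rw [if_pos ho, mul_one]
  · intro B _ hB
    rw [if_neg, mul_zero]
    intro h
    exact hB (Subtype.ext (hP.disj B B.2 B0 h0 o h ho))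
  · intro h
    exact absurd (Finset.mem_univ _) h

open Classical in
private theorem circ_one {P : Finset (Finset (Option ι))} (hP : IsPart P Finset.univ)
    (o : Option ι) : ∑ B : P, (if o ∈ (B : Finset (Option ι)) then (1 : ℤ) else 0) = 1 := by
  obtain ⟨B0, -, h⟩ := circ_sum hP o
  have h1 := h fun _ => 1
  simpa using h1

open Classical in
private theorem circ_eval {P : Finset (Finset (Option ι))} (μ : P → ℤ) (o : Option ι) :
    (∑ B : P, μ B • nn (B : Finset (Option ι))) (pt o) =
      ∑ B : P, μ B * (if o ∈ (B : Finset (Option ι)) then (1 : ℤ) else 0) -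
        ∑ B : P, μ B * (if none ∈ (B : Finset (Option ι)) then (1 : ℤ) else 0) := by
  rw [AddMonoidHom.finsetSum_apply, ← Finset.sum_sub_distrib]
  refine Finset.sum_congr rfl fun B _ => ?_
  have h1 := nn_pt (B : Finset (Option ι)) 1 o
  rw [one_smul, Nat.cast_one, one_mul] at h1
  rw [AddMonoidHom.smul_apply, h1, smul_eq_mul, mul_sub]

/-- **The circuit of a partition.** `∑_B nn B = 0` is the only relation; relations supported in one
part do not contribute to the index (`hm_fr_eq`, exactly one part contains `none`), the others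
contribute at least `-N` (`hm_fr_ge`), so the index is at least `|P| - N |β| ≥ 1`.

`prim`: if `∑ μ_B nn B = 0` evaluate at `pt (some i)`: `μ_(B ∋ some i) = μ_(B ∋ none)`. `ne`: as
`|P| ≥ 2` there is a part `B' ≠ B`; if `none ∉ B` take `some i ∈ B`, if `none ∈ B` take
`some i ∈ B'`. -/
theorem circ_part {N : ℕ} (hN : 1 ≤ N) {P : Finset (Finset (Option ι))}
    (hP : IsPart P Finset.univ) (h2 : 2 ≤ P.card) {α β : Type} [Fintype α] [Fintype β]
    (c : α ⊕ β → Option ι → ℂ) (hc : ∀ q, c q ≠ 0)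
    (hα : ∀ q : α, ∃ B ∈ P, ∀ o, c (Sum.inl q) o ≠ 0 → o ∈ B)
    (hβ : N * Fintype.card β + 1 ≤ P.card) :
    Circ (fun q => fr N (c q)) (fun B : P => nn (B : Finset (Option ι))) (fun _ => 1) := by
  classical
  have hpt : ∀ (B : Finset (Option ι)) (o : Option ι), nn B (pt o) =
      (if o ∈ B then (1 : ℤ) else 0) - if none ∈ B then 1 else 0 := by
    intro B o
    have h1 := nn_pt B 1 o
    rw [one_smul, Nat.cast_one, one_mul] at h1
    rw [h1]
  refine ⟨?_, fun _ => le_refl 1, ?_, ?_, ?_⟩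
  · intro B h
    obtain ⟨B', hB', hne⟩ : ∃ B' ∈ P, B' ≠ (B : Finset (Option ι)) :=
      Finset.exists_mem_ne (by omega) _
    by_cases hn : none ∈ (B : Finset (Option ι))
    · obtain ⟨o, ho⟩ := hP.ne B' hB'
      have h1 : o ∉ (B : Finset (Option ι)) := fun h2 => hne (hP.disj B' hB' B B.2 o ho h2)
      have h2 := hpt B o
      rw [if_neg h1, if_pos hn] at h2
      have h3 : nn (B : Finset (Option ι)) = 0 := h
      rw [h3] at h2
      simp at h2
    · obtain ⟨o, ho⟩ := hP.ne B B.2
      have h2 := hpt B o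
      rw [if_pos ho, if_neg hn] at h2
      have h3 : nn (B : Finset (Option ι)) = 0 := h
      rw [h3] at h2
      simp at h2
  · have h1 : ∀ m : ι → ℤ, (∑ B : P, (1 : ℕ) • nn (B : Finset (Option ι))) m = 0 := by
      intro m
      simp only [one_smul, AddMonoidHom.finsetSum_apply]
      unfold nn
      simp only [AddMonoidHom.finsetSum_apply, AddMonoidHom.smul_apply]
      rw [Finset.sum_comm]
      refine Finset.sum_eq_zero fun i _ => ?_
      rw [← Finset.sum_smul, Finset.sum_sub_distrib, circ_one hP, circ_one hP, sub_self, zero_smul]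
    ext m
    exact h1 _
  · intro μ hμ
    obtain ⟨B0, -, hB0⟩ := circ_sum hP (none : Option ι)
    refine ⟨μ B0, fun B => ?_⟩
    obtain ⟨o, ho⟩ := hP.ne B B.2
    obtain ⟨B1, h1, hB1⟩ := circ_sum hP o
    have h2 := circ_eval μ o
    rw [hB1, hB0] at h2
    have h3 : ∑ B : P, μ B • nn (B : Finset (Option ι)) = 0 := hμ
    rw [h3, AddMonoidHom.zero_apply] at h2
    have h4 : B = B1 := Subtype.ext (hP.disj B B.2 B1 B1.2 o ho h1)
    rw [h4]
    push_cast
    linarith
  · have h1 : ∀ q, (match q with | Sum.inl _ => (0 : ℤ) | Sum.inr _ => -(N : ℤ)) ≤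
        ∑ B : P, hm (fr N (c q)) (nn (B : Finset (Option ι))) := by
      intro q
      cases q with
      | inl q =>
        obtain ⟨B0, h0, hs⟩ := hα q
        have h2 : ∀ B : P, hm (fr N (c (Sum.inl q))) (nn (B : Finset (Option ι))) =
            (N : ℤ) * ((if (B : Finset (Option ι)) = B0 then (1 : ℤ) else 0) -
              if none ∈ (B : Finset (Option ι)) then 1 else 0) :=
          fun B => hm_fr_eq hN (hc _) hP h0 hs B.2
        simp only [h2]
        rw [← Finset.mul_sum, Finset.sum_sub_distrib, circ_one hP]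
        have h3 : ∑ B : P, (if (B : Finset (Option ι)) = B0 then (1 : ℤ) else 0) = 1 := by
          rw [Finset.sum_eq_single ⟨B0, h0⟩]
          · rw [if_pos rfl]
          · intro B _ hB
            rw [if_neg]
            intro h
            exact hB (Subtype.ext h)
          · intro h
            exact absurd (Finset.mem_univ _) h
        rw [h3]
        simp
      | inr q =>
        have h2 : ∀ B : P, -((N : ℤ) * if none ∈ (B : Finset (Option ι)) then 1 else 0) ≤
            hm (fr N (c (Sum.inr q))) (nn (B : Finset (Option ι))) :=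
          fun B => hm_fr_ge hN (hc _) B
        refine le_trans (le_of_eq ?_) (Finset.sum_le_sum fun B _ => h2 B)
        rw [Finset.sum_neg_distrib, ← Finset.mul_sum, circ_one hP, mul_one]
    have h2 : ∑ B : P, (((1 : ℕ) : ℤ)) * (1 + ∑ q, hm (fr N (c q)) (nn (B : Finset (Option ι)))) =
        (P.card : ℤ) + ∑ q, ∑ B : P, hm (fr N (c q)) (nn (B : Finset (Option ι))) := by
      simp only [Nat.cast_one, one_mul]
      rw [Finset.sum_add_distrib, Finset.sum_comm]
      simp
    have h3 := Finset.sum_le_sum fun q (_ : q ∈ Finset.univ) => h1 q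
    rw [Fintype.sum_sum_type] at h3
    simp only [Finset.sum_const_zero, Finset.sum_const, Finset.card_univ, zero_add,
      nsmul_eq_mul] at h3
    have h4 : ((N * Fintype.card β + 1 : ℕ) : ℤ) ≤ (P.card : ℤ) := by exact_mod_cast hβ
    push_cast at h4
    refine le_trans ?_ (le_of_eq h2.symm)
    nlinarith

end DS
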