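import Pool.Agent.Lib.MP_23b606_ag.DS.Rk

/-!
# DS/Comp: composition of good pairs (case (A) of Lemma Q)
-/

set_option autoImplicit false

open scoped BigOperators

namespace DS

variable {k V E : Type} [Field k] [AddCommGroup V] [Module k V] [FiniteDimensional k V]
  [Fintype E]

/-- **Case (A).** If `(a, Y)` is good for `U < H` and `(b, Z)` is good for `H < M` then
`(a + b, Y + Z)` is good for `U < M`.

Proof. `D = D₁ + D₂` by `dm_add`, and `D₁(B) = D₁(B ⊓ H)` by `dm_inf`. Write `u, h, m, β` for the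
dimensions of `U, H, M, B`, `C = B ⊓ H`, `c = dim C`. Note `C ⊓ U = B ⊓ U`.
(g4) `D₁(H) + D₂(M) = N (h - u) + N (m - h)`.
(g3) `U ≤ B < M`. If `H ≤ B`: `D₁(B) = D₁(H) = N (h - u)`, `D₂(B) ≤ N (β - h) - 1`. Otherwise
`U ≤ C < H`, `D₁(C) ≤ N (c - u) - 1`, and `C ≠ ⊥` (it contains `U ≠ ⊥`), so by (g2) for `D₂`
`D₂(B) ≤ N (β - c)`.
(g1) `B ≠ ⊥`, `B ⊓ U = ⊥`. If `C = ⊥`: `D₁(⊥) = 0` (`dm_bot`), `D₂(B) ≤ N β - 1` by (g1). If `C ≠ ⊥`:
`D₁(C) ≤ N c - 1` by (g1), and not `H ≤ B` (else `U ≤ B`), so `D₂(B) ≤ N (β - c)` by (g2).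
(g2) `B ⊓ U ≠ ⊥`, not `U ≤ B`: then `C ≥ B ⊓ U` is not `⊥`, not `H ≤ B`, not `U ≤ C`:
`D₁(C) ≤ N (c - dim (C ⊓ U))` by (g2), `D₂(B) ≤ N (β - c)` by (g2). -/
theorem Gd.comp {l : E → V} {N : ℕ} {U H M : Submodule k V} (hU : U ≠ ⊥) (h1 : U < H)
    (h2 : H < M) {a b : E → ℕ} {Y Z : Multiset V} (g : Gd l N U H a Y) (g' : Gd l N H M b Z) :
    Gd l N U M (a + b) (Y + Z) := by
  have hD : ∀ B : Submodule k V,
      dm l (a + b) (Y + Z) B = dm l a Y (B ⊓ H) + dm l b Z B := fun B => by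
    rw [dm_add, dm_inf l (fun i hi => (g.supp i hi).1) (fun y hy => (g.ymem y hy).1) B]
  have hU1 : ∀ B : Submodule k V, (B ⊓ H) ⊓ U = B ⊓ U := fun B => by
    rw [inf_assoc, inf_eq_right.2 h1.le]
  refine ⟨fun i hi => ?_, fun y hy => ?_, fun B hB hB0 hBU => ?_, fun B hB hBU hUB => ?_,
    fun B hUB hBM => ?_, ?_⟩
  · by_cases ha : a i = 0
    · have hb : b i ≠ 0 := by
        intro hb
        exact hi (by rw [Pi.add_apply, ha, hb])
      exact ⟨(g'.supp i hb).1, fun h => (g'.supp i hb).2 (h1.le h)⟩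
    · exact ⟨h2.le (g.supp i ha).1, (g.supp i ha).2⟩
  · rcases Multiset.mem_add.1 hy with h | h
    · exact ⟨h2.le (g.ymem y h).1, (g.ymem y h).2⟩
    · exact g'.ymem y h
  · rw [hD]
    by_cases hC : B ⊓ H = ⊥
    · rw [hC, dm_bot l (fun i hi h0 => (g.supp i hi).2 (by rw [h0]; exact zero_mem _))
        (fun y hy => (g.ymem y hy).2), zero_add]
      exact g'.g1 B hB hB0 hC
    · have e1 := g.g1 (B ⊓ H) inf_le_right hC (by rw [hU1, hBU])
      have hHB : ¬ H ≤ B := fun h => hU (by rw [← hBU, eq_comm]; exact inf_eq_right.2 (h1.le.trans h))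
      have e2 := g'.g2 B hB hC hHB
      linarith
  · rw [hD]
    have hC : B ⊓ H ≠ ⊥ := by
      intro h
      apply hBU
      rw [← hU1, h, bot_inf_eq]
    have hHB : ¬ H ≤ B := fun h => hUB (h1.le.trans h)
    have e1 := g.g2 (B ⊓ H) inf_le_right (by rw [hU1]; exact hBU)
      (fun h => hUB (h.trans inf_le_left))
    rw [hU1] at e1
    have e2 := g'.g2 B hB hC hHB
    linarith
  · rw [hD]
    by_cases hHB : H ≤ B
    · rw [inf_eq_right.2 hHB, g.g4]
      have e2 := g'.g3 B hHB hBM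
      linarith
    · have hC : B ⊓ H ≠ ⊥ := by
        intro h
        apply hU
        rw [eq_bot_iff, ← h]
        exact le_inf hUB h1.le
      have e1 := g.g3 (B ⊓ H) (le_inf hUB h1.le)
        (lt_of_le_of_ne inf_le_right fun h => hHB (inf_eq_right.1 h))
      have e2 := g'.g2 B hBM.le hC hHB
      linarith
  · rw [hD, inf_eq_right.2 h2.le, g.g4, g'.g4]
    ring

end DS
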