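import Pool.Agent.Lib.MP_23b606_ag.DS.Part

/-!
# DS/Defs: arrangements of vectors, the condition `RU`, good pairs

`V` is a finite dimensional vector space over `k`, `l : E → V` a finite family of vectors, `N ≥ 1`.
-/

set_option autoImplicit false

open scoped BigOperators

namespace DS

section rank

variable (k : Type) {V E : Type} [Field k] [AddCommGroup V] [Module k V]

/-- The rank of the vectors `l i`, `i ∈ S`. -/
noncomputable def rk (l : E → V) (S : Finset E) : ℕ :=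
  Module.finrank k (Submodule.span k (l '' (S : Set E)))

/-- `f(S) = N rk(S) - 1`. -/
noncomputable def fS (l : E → V) (N : ℕ) (S : Finset E) : ℤ := (N : ℤ) * (rk k l S : ℤ) - 1

end rank

variable {k V E : Type} [Field k] [AddCommGroup V] [Module k V] [Fintype E]

open Classical in
/-- The indices `i` with `l i ∈ M`, `l i ∉ U`. -/
noncomputable def ix (l : E → V) (U M : Submodule k V) : Finset E :=
  Finset.univ.filter fun i => l i ∈ M ∧ l i ∉ U

@[simp] theorem mem_ix {l : E → V} {U M : Submodule k V} {i : E} :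
    i ∈ ix l U M ↔ l i ∈ M ∧ l i ∉ U := by
  classical
  simp [ix]

/-- `RU(U, M)`: for all `U ≤ M₀ < M` and all partitions `P` of `{i : l i ∈ M ∖ M₀}`:
`N dim M₀ + ∑_{B ∈ P} (N rk B - 1) ≥ N dim M + 1`. -/
def RU (l : E → V) (N : ℕ) (U M : Submodule k V) : Prop :=
  ∀ M0 : Submodule k V, U ≤ M0 → M0 < M → ∀ P : Finset (Finset E), IsPart P (ix l M0 M) →
    (N : ℤ) * (Module.finrank k M : ℤ) + 1 ≤
      (N : ℤ) * (Module.finrank k M0 : ℤ) + ∑ B ∈ P, fS k l N B

open Classical in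
/-- The signed measure `D(B) = ∑_{l i ∈ B} a_i - #{y ∈ Y : y ∈ B}`. -/
noncomputable def dm (l : E → V) (a : E → ℕ) (Y : Multiset V) (B : Submodule k V) : ℤ :=
  ∑ i ∈ Finset.univ.filter (fun i => l i ∈ B), (a i : ℤ) - (Y.countP (fun y => y ∈ B) : ℤ)

/-- The conclusion of Lemma Q. -/
structure Gd (l : E → V) (N : ℕ) (U M : Submodule k V) (a : E → ℕ) (Y : Multiset V) : Prop where
  supp : ∀ i, a i ≠ 0 → l i ∈ M ∧ l i ∉ U
  ymem : ∀ y ∈ Y, y ∈ M ∧ y ≠ 0
  g1 : ∀ B : Submodule k V, B ≤ M → B ≠ ⊥ → B ⊓ U = ⊥ →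
    dm l a Y B ≤ (N : ℤ) * (Module.finrank k B : ℤ) - 1
  g2 : ∀ B : Submodule k V, B ≤ M → B ⊓ U ≠ ⊥ → ¬ U ≤ B →
    dm l a Y B ≤ (N : ℤ) * ((Module.finrank k B : ℤ) - (Module.finrank k ↥(B ⊓ U) : ℤ))
  g3 : ∀ B : Submodule k V, U ≤ B → B < M →
    dm l a Y B ≤ (N : ℤ) * ((Module.finrank k B : ℤ) - (Module.finrank k U : ℤ)) - 1
  g4 : dm l a Y M = (N : ℤ) * ((Module.finrank k M : ℤ) - (Module.finrank k U : ℤ))

end DS
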