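import Pool.Agent.Lib.MP_23b606_ag.T1.S.Sys

/-!
# DS/Sys: diagonal equations as Laurent polynomials

The lattice is `M = ι → ℤ`, the index `none` belongs to the constant term.
-/

set_option autoImplicit false

open scoped BigOperators

namespace DS

open T1

variable {ι : Type}

/-- The exponent vectors: `pt none = 0`, `pt (some i) = e_i`. -/
noncomputable def pt (o : Option ι) : ι → ℤ := by
  classical exact o.elim 0 fun i => Pi.single i 1

@[simp] theorem pt_none : pt (none : Option ι) = 0 := rfl

open Classical in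
theorem pt_some (i : ι) : pt (some i) = Pi.single i 1 := rfl

variable [Fintype ι]

/-- The diagonal Laurent polynomial `∑_o c_o x^(N e_o)`. -/
noncomputable def fr (N : ℕ) (c : Option ι → ℂ) : (ι → ℤ) →₀ ℂ :=
  ∑ o, Finsupp.single (N • pt o) (c o)

theorem pt_inj {N : ℕ} (hN : 1 ≤ N) : Function.Injective fun o : Option ι => N • pt o := by
  classical
  intro o o' h
  have h1 : pt o = pt o' := by
    funext i
    have h2 := congrFun h i
    simp only [Pi.smul_apply, nsmul_eq_mul] at h2
    have h3 : (N : ℤ) ≠ 0 := by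
      have : N ≠ 0 := by omega
      exact_mod_cast this
    exact mul_left_cancel₀ h3 h2
  rcases o with _ | i
  · rcases o' with _ | j
    · rfl
    · have h2 := congrFun h1 j
      rw [pt_none, pt_some, Pi.zero_apply, Pi.single_eq_same] at h2
      exact absurd h2 (by norm_num)
  · rcases o' with _ | j
    · have h2 := congrFun h1 i
      rw [pt_none, pt_some, Pi.zero_apply, Pi.single_eq_same] at h2
      exact absurd h2 (by norm_num)
    · by_cases hij : i = j
      · rw [hij]
      · have h2 := congrFun h1 i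
        rw [pt_some, pt_some, Pi.single_eq_same, Pi.single_eq_of_ne hij] at h2
        exact absurd h2 (by norm_num)

theorem fr_apply {N : ℕ} (hN : 1 ≤ N) (c : Option ι → ℂ) (o : Option ι) :
    fr N c (N • pt o) = c o := by
  classical
  unfold fr
  rw [Finsupp.finsetSum_apply, Finset.sum_eq_single o]
  · rw [Finsupp.single_eq_same]
  · intro o' _ h
    refine Finsupp.single_eq_of_ne fun h' => h ?_
    exact (pt_inj hN h').symm
  · intro h
    exact absurd (Finset.mem_univ _) h

theorem mem_fr_support {N : ℕ} (hN : 1 ≤ N) (c : Option ι → ℂ) (m : ι → ℤ) :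
    m ∈ (fr N c).support ↔ ∃ o, c o ≠ 0 ∧ m = N • pt o := by
  classical
  constructor
  · intro hm
    have h1 := Finsupp.support_finsetSum
      (show m ∈ (∑ o, Finsupp.single (N • pt o) (c o)).support from hm)
    rw [Finset.mem_biUnion] at h1
    obtain ⟨o, _, ho⟩ := h1
    have h2 := Finsupp.support_single_subset ho
    rw [Finset.mem_singleton] at h2
    subst h2
    refine ⟨o, ?_, rfl⟩
    rw [Finsupp.mem_support_iff, fr_apply hN] at hm
    exact hm
  · rintro ⟨o, ho, rfl⟩
    rw [Finsupp.mem_support_iff, fr_apply hN]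
    exact ho

theorem fr_ne_zero {N : ℕ} (hN : 1 ≤ N) {c : Option ι → ℂ} (hc : c ≠ 0) : fr N c ≠ 0 := by
  intro h
  apply hc
  funext o
  have h1 := fr_apply hN c o
  rw [h] at h1
  rw [← h1]
  rfl

variable {K : Type} [Field K]

/-- The character of `ι → ℤ` with the values `x i`. -/
noncomputable def chi (x : ι → K) (hx : ∀ i, x i ≠ 0) : Multiplicative (ι → ℤ) →* K where
  toFun m := ∏ i, x i ^ (Multiplicative.toAdd m i)
  map_one' := by simp
  map_mul' a b := by
    rw [← Finset.prod_mul_distrib]
    exact Finset.prod_congr rfl fun i _ => by rw [toAdd_mul, Pi.add_apply, zpow_add₀ (hx i)]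

/-- `lx none = 1`, `lx (some i) = x i ^ N`. -/
def lx (N : ℕ) (x : ι → K) (o : Option ι) : K := o.elim 1 fun i => x i ^ N

theorem chi_pt (x : ι → K) (hx : ∀ i, x i ≠ 0) (N : ℕ) (o : Option ι) :
    chi x hx (Multiplicative.ofAdd (N • pt o)) = lx N x o := by
  classical
  show ∏ i, x i ^ ((N • pt o) i) = lx N x o
  rcases o with _ | j
  · rw [pt_none, smul_zero]
    simp [lx]
  · rw [Finset.prod_eq_single j]
    · rw [Pi.smul_apply, pt_some, Pi.single_eq_same]
      show x j ^ (N • (1 : ℤ)) = x j ^ N
      rw [nsmul_eq_mul, mul_one, zpow_natCast]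
    · intro i _ h
      rw [Pi.smul_apply, pt_some, Pi.single_eq_of_ne h, smul_zero, zpow_zero]
    · intro h
      exact absurd (Finset.mem_univ _) h

theorem adjoin_chi [Algebra ℂ K] (x : ι → K) (hx : ∀ i, x i ≠ 0)
    (hgen : IntermediateField.adjoin ℂ (Set.range x) = ⊤) :
    IntermediateField.adjoin ℂ (Set.range (chi x hx)) = ⊤ := by
  rw [eq_top_iff, ← hgen, IntermediateField.adjoin_le_iff]
  rintro _ ⟨i, rfl⟩
  have h := chi_pt x hx 1 (some i)
  have h2 : x i = chi x hx (Multiplicative.ofAdd (1 • pt (some i))) := by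
    rw [h]
    simp [lx]
  show x i ∈ IntermediateField.adjoin ℂ (Set.range (chi x hx))
  rw [h2]
  exact IntermediateField.subset_adjoin ℂ _ ⟨_, rfl⟩

theorem ev_fr [Algebra ℂ K] (x : ι → K) (hx : ∀ i, x i ≠ 0) (N : ℕ) (c : Option ι → ℂ) :
    ev (chi x hx) (fr N c) = ∑ o, c o • lx N x o := by
  unfold ev fr
  rw [← Finsupp.sum_finsetSum_index]
  · refine Finset.sum_congr rfl fun o _ => ?_
    rw [Finsupp.sum_single_index, chi_pt, Algebra.smul_def]
    rw [map_zero, zero_mul]
  · intro m
    rw [map_zero, zero_mul]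
  · intro m a b
    rw [map_add, add_mul]

theorem dl_fr [Algebra ℂ K] (x : ι → K) (hx : ∀ i, x i ≠ 0) (N : ℕ) (c : Option ι → ℂ)
    (n' : (ι → ℤ) →+ ℤ) :
    dl (chi x hx) (fr N c) n' = ∑ o, c o • lx N x o * ((n' (N • pt o) : ℤ) : K) := by
  unfold dl fr
  rw [← Finsupp.sum_finsetSum_index]
  · refine Finset.sum_congr rfl fun o _ => ?_
    rw [Finsupp.sum_single_index, chi_pt, Algebra.smul_def (c o) (lx N x o)]
    rw [map_zero, zero_mul, zero_mul]
  · intro m
    rw [map_zero, zero_mul, zero_mul]
  · intro m a b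
    rw [map_add, add_mul, add_mul]

/-- Independent relations have independent logarithmic differentials.

Proof. If `∑_q γ_q dl (fr (c q)) = 0` (`γ_q ∈ K`), evaluate at the coordinate function `n' = x ↦ x i`:
`∑_q γ_q c_q (some i) = 0` (divide by `N x_i^N ≠ 0`). The vectors `(c_q (some i))_i` are linearly
independent over `ℂ`: if a combination `c` of the `c q` has `c (some i) = 0` for all `i` then
`c none = c none • lx none = 0` by the relation, so `c = 0`. Hence they are linearly independent
over `K` (`linearIndependent_algebraMap_comp_iff`), and `γ = 0`. -/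
theorem ind_fr [Algebra ℂ K] (x : ι → K) (hx : ∀ i, x i ≠ 0) {N : ℕ} (hN : 1 ≤ N) {Q : Type}
    [Fintype Q] (c : Q → Option ι → ℂ) (hc : LinearIndependent ℂ c)
    (h0 : ∀ q, ∑ o, c q o • lx N x o = 0) :
    LinearIndependent K fun q => dl (chi x hx) (fr N (c q)) := by
  classical
  have : CharZero K := charZero_of_injective_algebraMap (algebraMap ℂ K).injective
  have hli : LinearIndependent ℂ fun (q : Q) (i : ι) => c q (some i) := by
    rw [Fintype.linearIndependent_iff] at hc ⊢
    intro g hg
    apply hc g
    have hrel : ∑ o, (∑ q, g q • c q) o • lx N x o = 0 := by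
      calc ∑ o, (∑ q, g q • c q) o • lx N x o
          = ∑ o, ∑ q, g q • (c q o • lx N x o) := by
            refine Finset.sum_congr rfl fun o _ => ?_
            rw [Finset.sum_apply, Finset.sum_smul]
            refine Finset.sum_congr rfl fun q _ => ?_
            rw [Pi.smul_apply, smul_assoc]
        _ = ∑ q, g q • ∑ o, c q o • lx N x o := by
            rw [Finset.sum_comm]
            refine Finset.sum_congr rfl fun q _ => ?_
            rw [Finset.smul_sum]
        _ = 0 := by
            refine Finset.sum_eq_zero fun q _ => ?_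
            rw [h0 q, smul_zero]
    have hsome : ∀ i, (∑ q, g q • c q) (some i) = 0 := by
      intro i
      have h1 := congrFun hg i
      rw [Finset.sum_apply] at h1 ⊢
      exact h1
    rw [Fintype.sum_option] at hrel
    have hz : ∑ i, (∑ q, g q • c q) (some i) • lx N x (some i) = 0 := by
      refine Finset.sum_eq_zero fun i _ => ?_
      rw [hsome i, zero_smul]
    rw [hz, add_zero] at hrel
    have hnone : (∑ q, g q • c q) none = 0 := by
      have h1 : lx N x none = 1 := rfl
      rw [h1, Algebra.smul_def, mul_one] at hrel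
      exact (algebraMap ℂ K).injective (by rw [hrel, map_zero])
    funext o
    rcases o with _ | i
    · exact hnone
    · exact hsome i
  have hK : LinearIndependent K fun q : Q => algebraMap ℂ K ∘ fun i => c q (some i) :=
    linearIndependent_algebraMap_comp_iff.2 hli
  rw [Fintype.linearIndependent_iff] at hK ⊢
  intro γ hγ
  apply hK γ
  funext i
  have h1 := congrFun hγ (Pi.evalAddMonoidHom (fun _ : ι => ℤ) i)
  rw [Finset.sum_apply, Pi.zero_apply] at h1
  rw [Finset.sum_apply, Pi.zero_apply]
  have hN0 : (N : K) ≠ 0 := by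
    have : N ≠ 0 := by omega
    exact_mod_cast this
  have hfac : x i ^ N * (N : K) ≠ 0 := mul_ne_zero (pow_ne_zero _ (hx i)) hN0
  refine (mul_eq_zero.1 (?_ : (∑ q, (γ q • (algebraMap ℂ K ∘ fun i => c q (some i))) i)
    * (x i ^ N * (N : K)) = 0)).resolve_right hfac
  rw [← h1, Finset.sum_mul]
  refine Finset.sum_congr rfl fun q _ => ?_
  rw [Pi.smul_apply, Pi.smul_apply, dl_fr, smul_eq_mul, smul_eq_mul,
    Finset.sum_eq_single (some i)]
  · have h2 : (Pi.evalAddMonoidHom (fun _ : ι => ℤ) i) (N • pt (some i)) = (N : ℤ) := by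
      show (N • pt (some i)) i = (N : ℤ)
      rw [Pi.smul_apply, pt_some, Pi.single_eq_same, nsmul_eq_mul, mul_one]
    have h3 : lx N x (some i) = x i ^ N := rfl
    rw [h2, h3, Algebra.smul_def, Int.cast_natCast]
    show γ q * algebraMap ℂ K (c q (some i)) * (x i ^ N * (N : K)) = _
    ring
  · intro o _ ho
    have h2 : (Pi.evalAddMonoidHom (fun _ : ι => ℤ) i) (N • pt o) = 0 := by
      show (N • pt o) i = 0
      rw [Pi.smul_apply]
      rcases o with _ | j
      · rw [pt_none, Pi.zero_apply, smul_zero]
      · have hij : i ≠ j := fun h => ho (by rw [h])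
        rw [pt_some, Pi.single_eq_of_ne hij, smul_zero]
    rw [h2, Int.cast_zero, mul_zero]
  · intro h
    exact absurd (Finset.mem_univ _) h

end DS
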