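import Pool.Agent.Lib.MP_23b606_ag.DS.Defs
import Pool.Agent.Lib.MP_23b606_ag.DS.Sys

/-!
# DS/Eqs: ranks of the powers of the coordinates
-/

set_option autoImplicit false

open scoped BigOperators

namespace DS

open T1

/-- Ranks do not change under injective linear maps. -/
theorem rk_map {k V V' E : Type} [Field k] [AddCommGroup V] [Module k V] [AddCommGroup V']
    [Module k V'] (φ : V →ₗ[k] V') (hφ : Function.Injective φ) (l : E → V) (S : Finset E) :
    rk k (fun i => φ (l i)) S = rk k l S := by
  unfold rk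
  have h1 : (fun i => φ (l i)) '' (S : Set E) = φ '' (l '' (S : Set E)) := by
    rw [Set.image_image]
  rw [h1, ← Submodule.map_span]
  exact ((Submodule.equivMapOfInjective φ hφ _).finrank_eq).symm

private theorem eqs_alg {ι K : Type} [Field K] [Algebra ℂ K] (x : ι → K) {N : ℕ}
    (hN : 1 ≤ N) (hgen : IntermediateField.adjoin ℂ (Set.range x) = ⊤) (s : Set K)
    (hs : ∀ i, x i ^ N ∈ Algebra.adjoin ℂ s) : Algebra.IsAlgebraic (Algebra.adjoin ℂ s) K := by
  have hx : ∀ i, IsAlgebraic (Algebra.adjoin ℂ s) (x i) := by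
    intro i
    refine IsIntegral.isAlgebraic ?_
    refine IsIntegral.of_pow (show 0 < N from hN) ?_
    exact isIntegral_algebraMap (x := (⟨x i ^ N, hs i⟩ : Algebra.adjoin ℂ s))
  constructor
  intro y
  have hy : y ∈ IntermediateField.adjoin ℂ (Set.range x) := by
    rw [hgen]
    trivial
  induction hy using IntermediateField.adjoin_induction with
  | mem z hz =>
    obtain ⟨i, rfl⟩ := hz
    exact hx i
  | algebraMap c =>
    have h1 := isAlgebraic_algebraMap (A := K) (algebraMap ℂ (Algebra.adjoin ℂ s) c)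
    rwa [← IsScalarTower.algebraMap_apply ℂ (Algebra.adjoin ℂ s) K] at h1
  | add z w _ _ hz hw => exact hz.add hw
  | inv z _ hz => exact hz.inv
  | mul z w _ _ hz hw => exact hz.mul hw

/-- `K = ℂ(x)` has transcendence degree `n`, so `1, x_1^N, …` span a space of dimension at least
`n + 1`. Proof: a basis of the span starting with `1`: `K` is algebraic over the field generated by
the other `d - 1` members, so `n ≤ d - 1`. -/
theorem rk_lx_ge {ι K : Type} [Fintype ι] [Field K] [Algebra ℂ K] (x : ι → K) {N : ℕ}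
    (hN : 1 ≤ N) (hgen : IntermediateField.adjoin ℂ (Set.range x) = ⊤) {n : ℕ}
    (htr : Algebra.trdeg ℂ K = n) : n + 1 ≤ rk ℂ (lx N x) Finset.univ := by
  classical
  have h1 : LinearIndepOn ℂ id ({1} : Set K) := LinearIndepOn.singleton (by simp)
  have h2 : ({1} : Set K) ⊆ Set.range (lx N x) := by
    rintro _ rfl
    exact ⟨none, rfl⟩
  obtain ⟨b, hbt, h1b, htb, hli⟩ := exists_linearIndepOn_id_extension h1 h2
  have hfin : b.Finite := (Set.finite_range (lx N x)).subset hbt
  have hb1 : (1 : K) ∈ b := h1b rfl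
  have hspan : Submodule.span ℂ b = Submodule.span ℂ (Set.range (lx N x)) :=
    le_antisymm (Submodule.span_mono hbt) (Submodule.span_le.2 htb)
  have hrk : rk ℂ (lx N x) Finset.univ = hfin.toFinset.card := by
    have : Fintype b := hfin.fintype
    unfold rk
    rw [Finset.coe_univ, Set.image_univ, ← hspan, finrank_span_set_eq_card hli]
    congr 1
    ext y
    simp
  have halg : Algebra.IsAlgebraic (Algebra.adjoin ℂ (b \ {1})) K := by
    refine eqs_alg x hN hgen _ fun i => ?_
    have h3 : x i ^ N ∈ Submodule.span ℂ b := htb ⟨some i, rfl⟩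
    have h4 : Submodule.span ℂ b ≤ Subalgebra.toSubmodule (Algebra.adjoin ℂ (b \ {1})) := by
      refine Submodule.span_le.2 fun y hy => ?_
      by_cases hy1 : y = 1
      · rw [hy1]
        exact one_mem (Algebra.adjoin ℂ (b \ {1}))
      · exact Algebra.subset_adjoin ⟨hy, hy1⟩
    exact h4 h3
  have h5 := Algebra.IsAlgebraic.trdeg_le_cardinalMk ℂ (b \ {1})
  have h6 : b \ {1} = ((hfin.toFinset.erase 1 : Finset K) : Set K) := by
    ext y
    simp only [Set.mem_sdiff, Set.mem_singleton_iff, Finset.coe_erase, Set.Finite.coe_toFinset]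
  rw [htr, h6] at h5
  have h9 : Cardinal.mk ((hfin.toFinset.erase 1 : Finset K) : Set K) =
      ((hfin.toFinset.erase 1).card : Cardinal) := Cardinal.mk_coe_finset
  rw [h9] at h5
  have h7 : n ≤ (hfin.toFinset.erase 1).card := by exact_mod_cast h5
  rw [Finset.card_erase_of_mem (hfin.mem_toFinset.2 hb1)] at h7
  have h8 : 0 < hfin.toFinset.card := Finset.card_pos.2 ⟨1, hfin.mem_toFinset.2 hb1⟩
  omega

/-- Independent linear equations bound the rank. Proof: the relations `(A q, -b q)` in
`ker (c ↦ ∑ c o • lx N x o)` are linearly independent, rank and nullity. -/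
theorem rk_lx_le {ι κ K : Type} [Fintype ι] [Fintype κ] [Field K] [Algebra ℂ K] (x : ι → K)
    (N : ℕ) (A : κ → ι → ℂ) (hA : LinearIndependent ℂ A) (b : κ → ℂ)
    (hAb : ∀ q, ∑ i, algebraMap ℂ K (A q i) * x i ^ N = algebraMap ℂ K (b q)) :
    rk ℂ (lx N x) Finset.univ + Fintype.card κ ≤ Fintype.card ι + 1 := by
  classical
  let T : (Option ι → ℂ) →ₗ[ℂ] K := Fintype.linearCombination ℂ (lx N x)
  have hrk : rk ℂ (lx N x) Finset.univ = Module.finrank ℂ (LinearMap.range T) := by
    unfold rk
    rw [Finset.coe_univ, Set.image_univ, Fintype.range_linearCombination]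
  let r : κ → Option ι → ℂ := fun q o => o.elim (-b q) (A q)
  have hr : LinearIndependent ℂ r := by
    refine LinearIndependent.of_comp (LinearMap.funLeft ℂ ℂ (some : ι → Option ι)) ?_
    have h1 : (LinearMap.funLeft ℂ ℂ (some : ι → Option ι)) ∘ r = A := by
      funext q i
      rfl
    rw [h1]
    exact hA
  have hker : Submodule.span ℂ (Set.range r) ≤ LinearMap.ker T := by
    refine Submodule.span_le.2 ?_
    rintro _ ⟨q, rfl⟩
    rw [SetLike.mem_coe, LinearMap.mem_ker]
    have h1 : T (r q) = ∑ o, r q o • lx N x o := rfl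
    rw [h1, Fintype.sum_option]
    have h2 : r q none • lx N x none = -algebraMap ℂ K (b q) := by
      change (-b q) • (1 : K) = _
      rw [Algebra.smul_def, mul_one, map_neg]
    have h3 : ∑ i, r q (some i) • lx N x (some i) = algebraMap ℂ K (b q) := by
      rw [← hAb q]
      refine Finset.sum_congr rfl fun i _ => ?_
      change A q i • x i ^ N = _
      rw [Algebra.smul_def]
    rw [h2, h3, neg_add_cancel]
  have h1 := Submodule.finrank_mono hker
  rw [finrank_span_eq_card hr] at h1
  have h2 := LinearMap.finrank_range_add_finrank_ker T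
  rw [Module.finrank_fintype_fun_eq_card, Fintype.card_option] at h2
  rw [hrk]
  omega

end DS
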