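import Pool.Agent.Lib.MP_23b606_ag.T1.A.Val

/-!
# DS/Fil: the filtration of a finite dimensional space of functions by a valuation
-/

set_option autoImplicit false

open scoped BigOperators

namespace DS

open T1

variable {K : Type} [Field K] [Algebra ℂ K] {O : ValuationSubring K} (ν : NVal O)

/-- Nonzero constants have value `0`. -/
theorem v_const (hO : ∀ c : ℂ, algebraMap ℂ K c ∈ O) {c : ℂ} (hc : c ≠ 0) :
    ν.v (algebraMap ℂ K c) = 0 := by
  have h0 : algebraMap ℂ K c ≠ 0 := (map_ne_zero _).2 hc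
  have h1 := (ν.mem _ h0).1 (hO c)
  have h2 := (ν.mem _ (inv_ne_zero h0)).1 (by rw [← map_inv₀]; exact hO _)
  rw [ν.inv h0] at h2
  omega

variable {V : Type} [AddCommGroup V] [Module ℂ V]

/-- The vectors `x` with `φ x = 0` or `v (φ x) ≥ t`. -/
def Ft (hO : ∀ c : ℂ, algebraMap ℂ K c ∈ O) (φ : V →ₗ[ℂ] K) (t : ℤ) : Submodule ℂ V where
  carrier := {x | φ x = 0 ∨ t ≤ ν.v (φ x)}
  zero_mem' := Or.inl (map_zero φ)
  add_mem' := fun {x y} hx hy => by
    have h := ν.add (x := φ x) (y := φ y) (c := t - 1)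
      (hx.imp_right fun h => by omega) (hy.imp_right fun h => by omega)
    rw [← map_add] at h
    exact h.imp_right fun h => by omega
  smul_mem' := fun c x hx => by
    by_cases hc : c = 0
    · exact Or.inl (by rw [hc, zero_smul, map_zero])
    · rcases hx with hx | hx
      · exact Or.inl (by rw [map_smul, hx, smul_zero])
      · by_cases h0 : φ x = 0
        · exact Or.inl (by rw [map_smul, h0, smul_zero])
        · refine Or.inr ?_
          rw [map_smul, Algebra.smul_def, ν.mul _ _ ((map_ne_zero _).2 hc) h0,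
            v_const ν hO hc, zero_add]
          exact hx

variable (hO : ∀ c : ℂ, algebraMap ℂ K c ∈ O) (φ : V →ₗ[ℂ] K)

theorem mem_Ft {t : ℤ} {x : V} : x ∈ Ft ν hO φ t ↔ φ x = 0 ∨ t ≤ ν.v (φ x) := Iff.rfl

private theorem fil_anti {s t : ℤ} (h : s ≤ t) : Ft ν hO φ t ≤ Ft ν hO φ s := by
  intro x hx
  exact hx.imp_right fun h1 => h.trans h1

private theorem fil_bdd [FiniteDimensional ℂ V] : ∃ t : ℤ, Ft ν hO φ t = ⊤ := by
  classical
  let b := Module.finBasis ℂ V
  obtain ⟨t, ht⟩ : ∃ t : ℤ, ∀ i, t ≤ ν.v (φ (b i)) := by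
    obtain ⟨M, hM⟩ := (Set.finite_range fun i => ν.v (φ (b i))).bddBelow
    exact ⟨M, fun i => hM ⟨i, rfl⟩⟩
  refine ⟨t, ?_⟩
  rw [eq_top_iff, ← b.span_eq, Submodule.span_le]
  rintro _ ⟨i, rfl⟩
  exact Or.inr (ht i)

/-- There is a basis adapted to the filtration, ordered by increasing values.

Proof. Induction on `d`, for subspaces `W` of `V` or for all `V`. `d = 0`: clear. The values of
nonzero vectors are bounded below (by the minimum of the values of a basis), let `T₀` be the
smallest value. `Ft (T₀ + 1)` is a proper subspace, choose a hyperplane `H` of `V` with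
`Ft (T₀ + 1) ≤ H` and `z₀ ∉ H`; then `z₀ ∉ Ft (T₀ + 1)`, so `v (φ z₀) = T₀`. The induction hypothesis
for `H` with `φ` restricted to `H` gives `z₁, …, z_(d-1)`. For `t ≤ T₀`: `Ft t = ⊤` and all values are
`≥ T₀ ≥ t`. For `t > T₀`: `Ft t ≤ Ft (T₀ + 1) ≤ H`, so `Ft t` is the (image of the) `Ft t` of `H`, and
`v (φ z₀) = T₀ < t`. -/
theorem exists_fil [FiniteDimensional ℂ V] (hφ : Function.Injective φ) {d : ℕ}
    (hd : Module.finrank ℂ V = d) :
    ∃ z : Module.Basis (Fin d) ℂ V, Monotone (fun j => ν.v (φ (z j))) ∧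
      ∀ t : ℤ, Module.finrank ℂ (Ft ν hO φ t) =
        (Finset.univ.filter fun j => t ≤ ν.v (φ (z j))).card := by
  induction d generalizing V with
  | zero =>
    refine ⟨Module.finBasisOfFinrankEq ℂ V hd, fun i => i.elim0, fun t => ?_⟩
    have h1 := Submodule.finrank_le (Ft ν hO φ t)
    rw [hd] at h1
    rw [Nat.le_zero.1 h1, Finset.univ_eq_empty, Finset.filter_empty, Finset.card_empty]
  | succ d ih =>
    have hval : ∀ x : V, x ≠ 0 → φ x ≠ 0 := fun x hx h => hx (hφ (by rw [h, map_zero]))
    have hnt : Nontrivial V := Module.nontrivial_of_finrank_pos (R := ℂ) (by rw [hd]; exact d.succ_pos)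
    obtain ⟨x₀, hx₀⟩ := exists_ne (0 : V)
    obtain ⟨T₀, hT₀, hmax⟩ := Int.exists_greatest_of_bdd (P := fun t => Ft ν hO φ t = ⊤)
      ⟨ν.v (φ x₀), fun t ht => by
        have h1 : x₀ ∈ Ft ν hO φ t := by
          rw [ht]
          exact Submodule.mem_top
        exact h1.resolve_left (hval x₀ hx₀)⟩ (fil_bdd ν hO φ)
    have hge : ∀ x : V, x ≠ 0 → T₀ ≤ ν.v (φ x) := fun x hx => by
      have h1 : x ∈ Ft ν hO φ T₀ := by
        rw [hT₀]
        exact Submodule.mem_top
      exact h1.resolve_left (hval x hx)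
    have hlt : Ft ν hO φ (T₀ + 1) < ⊤ := by
      refine lt_top_iff_ne_top.2 fun h => ?_
      have := hmax _ h
      omega
    obtain ⟨f, hf, hle⟩ := Submodule.exists_le_ker_of_lt_top _ hlt
    obtain ⟨z₀, hz₀⟩ : ∃ z₀, f z₀ ≠ 0 := by
      by_contra hcon
      push Not at hcon
      exact hf (LinearMap.ext hcon)
    have hz₀0 : z₀ ≠ 0 := fun h => hz₀ (by rw [h, map_zero])
    have hv₀ : ν.v (φ z₀) = T₀ := by
      refine le_antisymm ?_ (hge z₀ hz₀0)
      by_contra hcon
      exact hz₀ (hle (Or.inr (by omega) : z₀ ∈ Ft ν hO φ (T₀ + 1)))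
    have hrk : Module.finrank ℂ (LinearMap.ker f) = d := by
      have h1 := LinearMap.finrank_range_add_finrank_ker f
      have h2 : LinearMap.range f = ⊤ := LinearMap.range_eq_top.2 (LinearMap.surjective hf)
      rw [h2, finrank_top, Module.finrank_self, hd] at h1
      omega
    obtain ⟨z, hz1, hz2⟩ := ih (φ.comp (LinearMap.ker f).subtype)
      (hφ.comp Subtype.val_injective) hrk
    refine ⟨Module.Basis.mkFinCons z₀ z ?_ ?_, ?_, ?_⟩
    · intro c x hx h
      have h1 := congrArg f h
      rw [map_add, map_smul, LinearMap.mem_ker.1 hx, add_zero, map_zero, smul_eq_mul] at h1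
      exact (mul_eq_zero.1 h1).resolve_right hz₀
    · intro x
      refine ⟨-(f x / f z₀), ?_⟩
      rw [LinearMap.mem_ker, map_add, map_smul, smul_eq_mul, neg_mul, div_mul_cancel₀ _ hz₀,
        add_neg_cancel]
    · rw [Module.Basis.coe_mkFinCons]
      intro i j hij
      refine Fin.cases (fun hij => ?_) (fun i' hij => ?_) i hij
      · refine Fin.cases (le_refl _) (fun j' => ?_) j
        simp only [Fin.cons_zero, Fin.cons_succ, Function.comp_apply]
        rw [hv₀]
        refine hge _ fun h => z.ne_zero j' ?_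
        exact Subtype.ext h
      · revert hij
        refine Fin.cases (fun hij => ?_) (fun j' hij => ?_) j
        · exact absurd hij (by simp)
        · simp only [Fin.cons_succ, Function.comp_apply]
          exact hz1 (Fin.succ_le_succ_iff.1 hij)
    · intro t
      rw [Fin.card_filter_univ_succ]
      simp only [Module.Basis.coe_mkFinCons, Fin.cons_zero, Fin.cons_succ, Function.comp_apply]
      rw [hv₀]
      have h2 := hz2 t
      simp only [LinearMap.comp_apply, Submodule.subtype_apply] at h2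
      rw [← h2]
      rcases le_or_gt t T₀ with ht | ht
      · rw [if_pos ht]
        have h3 : Ft ν hO φ t = ⊤ := top_le_iff.1 (hT₀ ▸ fil_anti ν hO φ ht)
        have h4 : Ft ν hO (φ.comp (LinearMap.ker f).subtype) t = ⊤ := by
          rw [eq_top_iff]
          intro x _
          have h5 : (x : V) ∈ Ft ν hO φ t := by
            rw [h3]
            exact Submodule.mem_top
          exact h5
        rw [h3, h4, finrank_top, finrank_top, hd, hrk]
      · rw [if_neg (not_le.2 ht)]
        have h3 : Ft ν hO φ t ≤ LinearMap.ker f := (fil_anti ν hO φ (by omega)).trans hle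
        have h4 : Ft ν hO (φ.comp (LinearMap.ker f).subtype) t =
            (Ft ν hO φ t).comap (LinearMap.ker f).subtype := rfl
        rw [h4]
        exact (LinearEquiv.finrank_eq (Submodule.comapSubtypeEquivOfLe h3)).symm

end DS
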