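import Pool.Agent.Lib.MP_23b606_ag.DS.Fil

/-!
# DS/Gg: products of linear forms
-/

set_option autoImplicit false

open scoped BigOperators

namespace DS

open T1

variable {K : Type} [Field K] [Algebra ℂ K] {V : Type} [AddCommGroup V] [Module ℂ V]
  (φ : V →ₗ[ℂ] K) {E : Type} [Fintype E]

/-- `∏_i φ(l i)^(-a_i) ∏_{y ∈ Y} φ(y)`. -/
noncomputable def gg (l : E → V) (a : E → ℕ) (Y : Multiset V) : K :=
  (∏ i, (φ (l i) ^ a i)⁻¹) * (Y.map fun y => φ y).prod

private theorem gg_phi_ne (hφ : Function.Injective φ) {y : V} (hy : y ≠ 0) : φ y ≠ 0 :=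
  fun h => hy (hφ (h.trans (map_zero φ).symm))

private theorem gg_left_ne (hφ : Function.Injective φ) {l : E → V} (hl0 : ∀ i, l i ≠ 0)
    (a : E → ℕ) : (∏ i, (φ (l i) ^ a i)⁻¹) ≠ 0 :=
  Finset.prod_ne_zero_iff.2 fun i _ => inv_ne_zero (pow_ne_zero _ (gg_phi_ne φ hφ (hl0 i)))

private theorem gg_right_ne (hφ : Function.Injective φ) {Y : Multiset V} (hY : ∀ y ∈ Y, y ≠ 0) :
    (Y.map fun y => φ y).prod ≠ 0 := by
  refine Multiset.prod_ne_zero fun h => ?_
  obtain ⟨y, hy, h⟩ := Multiset.mem_map.1 h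
  exact gg_phi_ne φ hφ (hY y hy) h

omit [Algebra ℂ K] in
private theorem gg_v_prod {O : ValuationSubring K} (ν : NVal O) {α : Type} (S : Finset α)
    (x : α → K) (hx : ∀ i ∈ S, x i ≠ 0) : ν.v (∏ i ∈ S, x i) = ∑ i ∈ S, ν.v (x i) := by
  classical
  induction S using Finset.induction_on with
  | empty => rw [Finset.prod_empty, Finset.sum_empty, ν.one]
  | insert a S ha ih =>
    rw [Finset.prod_insert ha, Finset.sum_insert ha, ν.mul _ _ (hx a (Finset.mem_insert_self a S))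
      (Finset.prod_ne_zero_iff.2 fun i hi => hx i (Finset.mem_insert_of_mem hi)),
      ih fun i hi => hx i (Finset.mem_insert_of_mem hi)]

private theorem gg_v_mprod {O : ValuationSubring K} (ν : NVal O) (hφ : Function.Injective φ)
    (Y : Multiset V) : (∀ y ∈ Y, y ≠ 0) → (Y.map fun y => φ y).prod ≠ 0 ∧
      ν.v (Y.map fun y => φ y).prod = (Y.map fun y => ν.v (φ y)).sum := by
  induction Y using Multiset.induction_on with
  | empty =>
    intro _
    rw [Multiset.map_zero, Multiset.map_zero, Multiset.prod_zero, Multiset.sum_zero]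
    exact ⟨one_ne_zero, ν.one⟩
  | cons y Y ih =>
    intro h
    obtain ⟨h1, h2⟩ := ih fun z hz => h z (Multiset.mem_cons_of_mem hz)
    have h3 := gg_phi_ne φ hφ (h y (Multiset.mem_cons_self y Y))
    rw [Multiset.map_cons, Multiset.map_cons, Multiset.prod_cons, Multiset.sum_cons]
    exact ⟨mul_ne_zero h3 h1, by rw [ν.mul _ _ h3 h1, h2]⟩

theorem gg_ne_zero (hφ : Function.Injective φ) {l : E → V} (hl0 : ∀ i, l i ≠ 0) (a : E → ℕ)
    {Y : Multiset V} (hY : ∀ y ∈ Y, y ≠ 0) : gg φ l a Y ≠ 0 :=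
  mul_ne_zero (gg_left_ne φ hφ hl0 a) (gg_right_ne φ hφ hY)

/-- The value of `gg`. -/
theorem v_gg {O : ValuationSubring K} (ν : NVal O) (hφ : Function.Injective φ) {l : E → V}
    (hl0 : ∀ i, l i ≠ 0) (a : E → ℕ) {Y : Multiset V} (hY : ∀ y ∈ Y, y ≠ 0) :
    ν.v (gg φ l a Y) = -∑ i, (a i : ℤ) * ν.v (φ (l i)) + (Y.map fun y => ν.v (φ y)).sum := by
  obtain ⟨h1, h2⟩ := gg_v_mprod φ ν hφ Y hY
  have h0 : ∀ i, φ (l i) ≠ 0 := fun i => gg_phi_ne φ hφ (hl0 i)
  rw [gg, ν.mul _ _ (gg_left_ne φ hφ hl0 a) h1, h2,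
    gg_v_prod ν _ _ fun i _ => inv_ne_zero (pow_ne_zero _ (h0 i)), ← Finset.sum_neg_distrib]
  congr 1
  refine Finset.sum_congr rfl fun i _ => ?_
  have h3 := ν.zpow (h0 i) (a i : ℤ)
  rw [zpow_natCast] at h3
  rw [ν.inv (pow_ne_zero _ (h0 i)), h3]

end DS
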