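import Pool.Agent.Lib.MP_23b606_ag.DS.Fil
import Pool.Agent.Lib.MP_23b606_ag.DS.Defs

/-!
# DS/Ineq: the inequality of orders
-/

set_option autoImplicit false

open scoped BigOperators

namespace DS

open T1

variable {K : Type} [Field K] [Algebra ℂ K] {O : ValuationSubring K} (ν : NVal O)
  (hO : ∀ c : ℂ, algebraMap ℂ K c ∈ O) {V : Type} [AddCommGroup V] [Module ℂ V]
  [FiniteDimensional ℂ V] (φ : V →ₗ[ℂ] K) {E : Type} [Fintype E]

include ν in
/-- The constants are in the valuation ring, since `ℂˣ` is divisible. -/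
private theorem ineq_const (c : ℂ) : algebraMap ℂ K c ∈ O := by
  by_cases hc : c = 0
  · rw [hc, map_zero]
    exact O.zero_mem
  have h0 : algebraMap ℂ K c ≠ 0 := (map_ne_zero _).2 hc
  rw [ν.mem _ h0]
  obtain ⟨d, hd⟩ := IsAlgClosed.exists_pow_nat_eq c
    (n := (ν.v (algebraMap ℂ K c)).natAbs + 1) (Nat.succ_pos _)
  have hd0 : algebraMap ℂ K d ≠ 0 := by
    intro h1
    rw [map_eq_zero] at h1
    rw [h1, zero_pow (Nat.succ_ne_zero _)] at hd
    exact hc hd.symm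
  have h1 : ν.v (algebraMap ℂ K c) =
      (((ν.v (algebraMap ℂ K c)).natAbs + 1 : ℕ) : ℤ) * ν.v (algebraMap ℂ K d) := by
    conv_lhs => rw [← hd, map_pow, ← zpow_natCast, ν.zpow hd0]
  by_contra hneg
  rw [not_le] at hneg
  obtain ⟨m, hm⟩ : ∃ m, ν.v (algebraMap ℂ K c) = m := ⟨_, rfl⟩
  obtain ⟨e, he⟩ : ∃ e, ν.v (algebraMap ℂ K d) = e := ⟨_, rfl⟩
  rw [hm, he] at h1
  rw [hm] at hneg
  have h2 : e < 0 := by
    by_contra h
    rw [not_lt] at h
    have : 0 ≤ ((m.natAbs + 1 : ℕ) : ℤ) * e := mul_nonneg (by positivity) h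
    omega
  have h3 : ((m.natAbs + 1 : ℕ) : ℤ) * e ≤ ((m.natAbs + 1 : ℕ) : ℤ) * (-1) :=
    mul_le_mul_of_nonneg_left (by omega) (by positivity)
  omega

/-- The values of the `l i` are multiples of `N`, and the minimal value of `V` is one of them.
Proof: `v (φ (l i)) = N v (x i)`; `v (φ (z 0))` is the minimal value since `z` is a basis with
monotone values (`NVal.sum`), and as the `l i` span `V` the value of `z 0` is at least the minimum
of the values of the `l i`. -/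
theorem exists_min (hφ : Function.Injective φ) {n : ℕ} {l : E → V}
    (hl : Submodule.span ℂ (Set.range l) = ⊤) {x : E → K} (hx0 : ∀ i, x i ≠ 0) {N : ℕ}
    (hx : ∀ i, φ (l i) = x i ^ N) (z : Module.Basis (Fin (n + 1)) ℂ V)
    (hz : Monotone fun j => ν.v (φ (z j))) :
    (∀ y : V, y ≠ 0 → ν.v (φ (z 0)) ≤ ν.v (φ y)) ∧
      ∀ i, (N : ℤ) ∣ ν.v (φ (l i)) - ν.v (φ (z 0)) := by
  have hO : ∀ c : ℂ, algebraMap ℂ K c ∈ O := ineq_const ν
  have hmin : ∀ y : V, y ≠ 0 → ν.v (φ (z 0)) ≤ ν.v (φ y) := by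
    intro y hy
    have htop : (⊤ : Submodule ℂ V) ≤ Ft ν hO φ (ν.v (φ (z 0))) := by
      rw [← z.span_eq, Submodule.span_le]
      rintro _ ⟨j, rfl⟩
      exact Or.inr (hz (Fin.zero_le j))
    have h1 : y ∈ Ft ν hO φ (ν.v (φ (z 0))) := htop Submodule.mem_top
    rcases h1 with h1 | h1
    · exact absurd (hφ (h1.trans (map_zero φ).symm)) hy
    · exact h1
  have hval : ∀ i, ν.v (φ (l i)) = (N : ℤ) * ν.v (x i) := by
    intro i
    rw [hx i, ← zpow_natCast, ν.zpow (hx0 i)]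
  have hl0 : ∀ i, l i ≠ 0 := by
    intro i h0
    have h1 := hx i
    rw [h0, map_zero] at h1
    exact pow_ne_zero N (hx0 i) h1.symm
  refine ⟨hmin, ?_⟩
  obtain ⟨i0, hi0⟩ : ∃ i, ν.v (φ (l i)) ≤ ν.v (φ (z 0)) := by
    by_contra hcon
    push Not at hcon
    have htop : (⊤ : Submodule ℂ V) ≤ Ft ν hO φ (ν.v (φ (z 0)) + 1) := by
      rw [← hl, Submodule.span_le]
      rintro _ ⟨i, rfl⟩
      exact Or.inr (by have := hcon i; omega)
    have h1 : z 0 ∈ Ft ν hO φ (ν.v (φ (z 0)) + 1) := htop Submodule.mem_top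
    rcases h1 with h1 | h1
    · exact z.ne_zero 0 (hφ (h1.trans (map_zero φ).symm))
    · omega
  have h2 : ν.v (φ (z 0)) = (N : ℤ) * ν.v (x i0) := by
    rw [← hval i0]
    exact le_antisymm (hmin _ (hl0 i0)) hi0
  intro i
  rw [hval i, h2]
  exact dvd_sub (dvd_mul_right _ _) (dvd_mul_right _ _)

private theorem ineq_count (c : ℤ) (L : ℕ) (h0 : 0 ≤ c) (h1 : c ≤ L) :
    ∑ t ∈ Finset.Icc 1 L, (if (t : ℤ) ≤ c then (1 : ℤ) else 0) = c := by
  obtain ⟨m, rfl⟩ := Int.eq_ofNat_of_zero_le h0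
  have h2 : (Finset.Icc 1 L).filter (fun t : ℕ => (t : ℤ) ≤ (m : ℤ)) = Finset.Icc 1 m := by
    ext t
    simp only [Finset.mem_filter, Finset.mem_Icc]
    omega
  rw [← Finset.sum_filter, h2, Finset.sum_const, Nat.card_Icc, nsmul_eq_mul, mul_one]
  simp

omit [FiniteDimensional ℂ V] in
private theorem ineq_countP (hφ : Function.Injective φ) (T0 : ℤ) (t : ℕ) (Y : Multiset V)
    (hY : ∀ y ∈ Y, y ≠ 0) [DecidablePred fun y => y ∈ Ft ν hO φ (T0 + t)] :
    ((Y.countP (fun y => y ∈ Ft ν hO φ (T0 + t)) : ℕ) : ℤ) =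
      (Y.map fun y => if (t : ℤ) ≤ ν.v (φ y) - T0 then (1 : ℤ) else 0).sum := by
  induction Y using Multiset.induction_on with
  | empty => simp
  | cons y Y ih =>
    have hy : φ y ≠ 0 := fun h0 =>
      hY y (Multiset.mem_cons_self y Y) (hφ (h0.trans (map_zero φ).symm))
    rw [Multiset.countP_cons, Multiset.map_cons, Multiset.sum_cons,
      Nat.cast_add, ih fun y hy => hY y (Multiset.mem_cons_of_mem hy), add_comm]
    congr 1
    have h1 : y ∈ Ft ν hO φ (T0 + t) ↔ (t : ℤ) ≤ ν.v (φ y) - T0 := by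
      rw [mem_Ft]
      constructor
      · rintro (h | h)
        · exact absurd h hy
        · omega
      · intro h
        exact Or.inr (by omega)
    by_cases h2 : (t : ℤ) ≤ ν.v (φ y) - T0
    · rw [if_pos (h1.2 h2), if_pos h2, Nat.cast_one]
    · rw [if_neg (fun h => h2 (h1.1 h)), if_neg h2, Nat.cast_zero]

omit [FiniteDimensional ℂ V] in
private theorem ineq_dm (hφ : Function.Injective φ) {l : E → V} (hl0 : ∀ i, φ (l i) ≠ 0)
    (a : E → ℕ) (Y : Multiset V) (hY : ∀ y ∈ Y, y ≠ 0) (T0 : ℤ) (t : ℕ) :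
    dm l a Y (Ft ν hO φ (T0 + t)) =
      ∑ i, (a i : ℤ) * (if (t : ℤ) ≤ ν.v (φ (l i)) - T0 then (1 : ℤ) else 0)
        - (Y.map fun y => if (t : ℤ) ≤ ν.v (φ y) - T0 then (1 : ℤ) else 0).sum := by
  classical
  unfold dm
  rw [ineq_countP ν hO φ hφ T0 t Y hY, Finset.sum_filter]
  congr 1
  refine Finset.sum_congr rfl fun i _ => ?_
  have h1 : l i ∈ Ft ν hO φ (T0 + t) ↔ (t : ℤ) ≤ ν.v (φ (l i)) - T0 := by
    rw [mem_Ft]
    constructor
    · rintro (h | h)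
      · exact absurd h (hl0 i)
      · omega
    · intro h
      exact Or.inr (by omega)
  by_cases h2 : (t : ℤ) ≤ ν.v (φ (l i)) - T0
  · rw [if_pos (h1.2 h2), if_pos h2, mul_one]
  · rw [if_neg (fun h => h2 (h1.1 h)), if_neg h2, mul_zero]

/-- **The inequality.** `T₀ = v (φ (z 0))`, `t_j = v (φ (z j)) - T₀ ≥ 0`, `v' = v - T₀`. If some
`t_j > 0` then `N ∑ t_j - ∑_i a_i v'(l i) + ∑_{y ∈ Y} v'(y) ≥ N`.

Proof. Let `L` be an upper bound of all the numbers `t_j`, `v'(l i)`, `v'(y)`, `F_t = Ft (T₀ + t)`.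
Each natural number `c ≤ L` is `∑_{t = 1}^L [t ≤ c]`, so the left hand side is
`∑_{t = 1}^L (N dim F_t - dm l a Y F_t)` (`hz'`). `F_t ≠ ⊤` for `t ≥ 1` (`z 0 ∉ F_t`). Each term is
`≥ 0` (`= 0` for `F_t = ⊥`, `≥ 1` otherwise by `h1`; `dm_bot` is proved in Rk), and `F_1 ≠ ⊥`. If no
`l i` is in `F_1` then `dm l a Y F_1 ≤ 0` and the first term is `≥ N dim F_1 ≥ N`. If `l i ∈ F_1`,
then `v'(l i) ≥ 1` is a multiple of `N` (`exists_min`), so `l i ∈ F_t` for `t = 1, …, N`, and these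
`N` terms are `≥ 1`. -/
theorem ineq (hφ : Function.Injective φ) {n : ℕ} {l : E → V}
    (hl : Submodule.span ℂ (Set.range l) = ⊤) {x : E → K} (hx0 : ∀ i, x i ≠ 0) {N : ℕ}
    (hN : 1 ≤ N) (hx : ∀ i, φ (l i) = x i ^ N) (a : E → ℕ) (Y : Multiset V)
    (hY : ∀ y ∈ Y, y ≠ 0)
    (h1 : ∀ W : Submodule ℂ V, W ≠ ⊥ → W ≠ ⊤ →
      dm l a Y W ≤ (N : ℤ) * (Module.finrank ℂ W : ℤ) - 1)
    (z : Module.Basis (Fin (n + 1)) ℂ V) (hz : Monotone fun j => ν.v (φ (z j)))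
    (hz' : ∀ t : ℤ, Module.finrank ℂ (Ft ν hO φ t) =
      (Finset.univ.filter fun j => t ≤ ν.v (φ (z j))).card)
    (hne : ∃ j, ν.v (φ (z 0)) < ν.v (φ (z j))) :
    (N : ℤ) ≤ (N : ℤ) * ∑ j, (ν.v (φ (z j)) - ν.v (φ (z 0)))
      - ∑ i, (a i : ℤ) * (ν.v (φ (l i)) - ν.v (φ (z 0)))
      + (Y.map fun y => ν.v (φ y) - ν.v (φ (z 0))).sum := by
  classical
  obtain ⟨hmin, hdvd⟩ := exists_min ν φ hφ hl hx0 hx z hz
  have hφ0 : ∀ y : V, y ≠ 0 → φ y ≠ 0 := fun y hy h0 => hy (hφ (h0.trans (map_zero φ).symm))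
  have hφl : ∀ i, φ (l i) ≠ 0 := fun i => by rw [hx i]; exact pow_ne_zero N (hx0 i)
  have hl0 : ∀ i, l i ≠ 0 := fun i h0 => hφl i (by rw [h0, map_zero])
  obtain ⟨T0, hT0⟩ : ∃ T0, ν.v (φ (z 0)) = T0 := ⟨_, rfl⟩
  rw [hT0] at hmin hdvd hne
  rw [hT0]
  -- the bound
  obtain ⟨L, hL1, hL2, hL3⟩ : ∃ L : ℕ, (∀ j, ν.v (φ (z j)) - T0 ≤ L) ∧
      (∀ i, ν.v (φ (l i)) - T0 ≤ L) ∧ ∀ y ∈ Y, ν.v (φ y) - T0 ≤ L := by
    refine ⟨∑ j, (ν.v (φ (z j)) - T0).toNat + ∑ i, (ν.v (φ (l i)) - T0).toNat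
      + (Y.map fun y => (ν.v (φ y) - T0).toNat).sum, ?_, ?_, ?_⟩
    · intro j
      have h := Finset.single_le_sum (f := fun j => (ν.v (φ (z j)) - T0).toNat)
        (fun _ _ => Nat.zero_le _) (Finset.mem_univ j)
      have h' : (ν.v (φ (z j)) - T0).toNat ≤ ∑ j, (ν.v (φ (z j)) - T0).toNat := h
      omega
    · intro i
      have h := Finset.single_le_sum (f := fun i => (ν.v (φ (l i)) - T0).toNat)
        (fun _ _ => Nat.zero_le _) (Finset.mem_univ i)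
      have h' : (ν.v (φ (l i)) - T0).toNat ≤ ∑ i, (ν.v (φ (l i)) - T0).toNat := h
      omega
    · intro y hy
      have h' : (ν.v (φ y) - T0).toNat ≤ (Y.map fun y => (ν.v (φ y) - T0).toNat).sum :=
        Multiset.single_le_sum (fun _ _ => Nat.zero_le _) _
          (Multiset.mem_map_of_mem (fun y => (ν.v (φ y) - T0).toNat) hy)
      omega
  -- the left hand side
  have e1 : ∑ j, (ν.v (φ (z j)) - T0) =
      ∑ t ∈ Finset.Icc 1 L, (Module.finrank ℂ (Ft ν hO φ (T0 + (t : ℕ))) : ℤ) := by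
    have e1a : ∀ j, ν.v (φ (z j)) - T0 =
        ∑ t ∈ Finset.Icc 1 L, (if (t : ℤ) ≤ ν.v (φ (z j)) - T0 then (1 : ℤ) else 0) := by
      intro j
      refine (ineq_count _ L ?_ (hL1 j)).symm
      have := hmin _ (z.ne_zero j)
      omega
    rw [Finset.sum_congr rfl fun j _ => e1a j, Finset.sum_comm]
    refine Finset.sum_congr rfl fun t _ => ?_
    rw [hz', Finset.sum_boole]
    have e1b : (Finset.univ.filter fun j => (t : ℤ) ≤ ν.v (φ (z j)) - T0) =
        Finset.univ.filter fun j => T0 + (t : ℤ) ≤ ν.v (φ (z j)) := by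
      ext j
      simp only [Finset.mem_filter, Finset.mem_univ, true_and]
      omega
    rw [e1b]
  have e2 : ∑ i, (a i : ℤ) * (ν.v (φ (l i)) - T0) =
      ∑ t ∈ Finset.Icc 1 L, ∑ i, (a i : ℤ) *
        (if (t : ℤ) ≤ ν.v (φ (l i)) - T0 then (1 : ℤ) else 0) := by
    rw [Finset.sum_comm]
    refine Finset.sum_congr rfl fun i _ => ?_
    rw [← Finset.mul_sum, ineq_count _ L _ (hL2 i)]
    have := hmin _ (hl0 i)
    omega
  have e3 : ∀ Y' : Multiset V, (∀ y ∈ Y', y ≠ 0 ∧ ν.v (φ y) - T0 ≤ L) →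
      (Y'.map fun y => ν.v (φ y) - T0).sum = ∑ t ∈ Finset.Icc 1 L,
        (Y'.map fun y => if (t : ℤ) ≤ ν.v (φ y) - T0 then (1 : ℤ) else 0).sum := by
    intro Y'
    induction Y' using Multiset.induction_on with
    | empty => intro _; simp
    | cons y Y' ih =>
      intro hY'
      have hy := hY' y (Multiset.mem_cons_self y Y')
      have hge := hmin y hy.1
      simp only [Multiset.map_cons, Multiset.sum_cons, Finset.sum_add_distrib]
      rw [ih fun y hy => hY' y (Multiset.mem_cons_of_mem hy),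
        ineq_count _ L (by omega) hy.2]
  have e4 : (N : ℤ) * ∑ j, (ν.v (φ (z j)) - T0)
      - ∑ i, (a i : ℤ) * (ν.v (φ (l i)) - T0) + (Y.map fun y => ν.v (φ y) - T0).sum =
      ∑ t ∈ Finset.Icc 1 L, ((N : ℤ) * (Module.finrank ℂ (Ft ν hO φ (T0 + (t : ℕ))) : ℤ)
        - dm l a Y (Ft ν hO φ (T0 + (t : ℕ)))) := by
    rw [e1, e2, e3 Y fun y hy => ⟨hY y hy, hL3 y hy⟩, Finset.mul_sum, ← Finset.sum_sub_distrib,
      ← Finset.sum_add_distrib]
    refine Finset.sum_congr rfl fun t _ => ?_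
    rw [ineq_dm ν hO φ hφ hφl a Y hY T0 t]
    ring
  rw [e4]
  -- the terms
  have hbot : dm l a Y (⊥ : Submodule ℂ V) = 0 := by
    unfold dm
    have h1 : (Finset.univ.filter fun i => l i ∈ (⊥ : Submodule ℂ V)) = ∅ := by
      rw [Finset.filter_eq_empty_iff]
      intro i _ h
      exact hl0 i ((Submodule.mem_bot ℂ).1 h)
    have h2 : Y.countP (fun y => y ∈ (⊥ : Submodule ℂ V)) = 0 := by
      rw [Multiset.countP_eq_zero]
      intro y hy h
      exact hY y hy ((Submodule.mem_bot ℂ).1 h)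
    rw [h1, h2]
    simp
  have hpos : ∀ t : ℕ, 1 ≤ t → Ft ν hO φ (T0 + (t : ℕ)) ≠ ⊥ →
      1 ≤ (N : ℤ) * (Module.finrank ℂ (Ft ν hO φ (T0 + (t : ℕ))) : ℤ)
        - dm l a Y (Ft ν hO φ (T0 + (t : ℕ))) := by
    intro t ht hb
    have htop : Ft ν hO φ (T0 + (t : ℕ)) ≠ ⊤ := by
      intro h0
      have h1 : z 0 ∈ Ft ν hO φ (T0 + (t : ℕ)) := by rw [h0]; exact Submodule.mem_top
      rcases h1 with h1 | h1
      · exact hφ0 _ (z.ne_zero 0) h1
      · omega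
    have := h1 _ hb htop
    linarith
  have hnn : ∀ t : ℕ, 1 ≤ t →
      0 ≤ (N : ℤ) * (Module.finrank ℂ (Ft ν hO φ (T0 + (t : ℕ))) : ℤ)
        - dm l a Y (Ft ν hO φ (T0 + (t : ℕ))) := by
    intro t ht
    by_cases hb : Ft ν hO φ (T0 + (t : ℕ)) = ⊥
    · rw [hb, hbot, finrank_bot]
      simp
    · exact zero_le_one.trans (hpos t ht hb)
  obtain ⟨j, hj⟩ := hne
  have hL0 : 1 ≤ L := by
    have := hL1 j
    omega
  have hF1 : Ft ν hO φ (T0 + (1 : ℕ)) ≠ ⊥ := by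
    intro h0
    have h1 : z j ∈ Ft ν hO φ (T0 + (1 : ℕ)) := Or.inr (by push_cast; omega)
    rw [h0, Submodule.mem_bot] at h1
    exact z.ne_zero j h1
  by_cases hcase : ∃ i, l i ∈ Ft ν hO φ (T0 + (1 : ℕ))
  · obtain ⟨i, hi⟩ := hcase
    have hwi : 1 ≤ ν.v (φ (l i)) - T0 := by
      rcases hi with hi | hi
      · exact absurd hi (hφl i)
      · push_cast at hi
        omega
    have hNle : (N : ℤ) ≤ ν.v (φ (l i)) - T0 := Int.le_of_dvd (by omega) (hdvd i)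
    have hNL : N ≤ L := by
      have := hL2 i
      omega
    calc (N : ℤ) = ∑ t ∈ Finset.Icc 1 N, (1 : ℤ) := by simp
      _ ≤ ∑ t ∈ Finset.Icc 1 N, ((N : ℤ) *
            (Module.finrank ℂ (Ft ν hO φ (T0 + (t : ℕ))) : ℤ)
              - dm l a Y (Ft ν hO φ (T0 + (t : ℕ)))) := by
          refine Finset.sum_le_sum fun t ht => ?_
          rw [Finset.mem_Icc] at ht
          refine hpos t ht.1 ?_
          intro h0
          have h1 : l i ∈ Ft ν hO φ (T0 + (t : ℕ)) := Or.inr (by omega)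
          rw [h0, Submodule.mem_bot] at h1
          exact hl0 i h1
      _ ≤ _ := by
          refine Finset.sum_le_sum_of_subset_of_nonneg (Finset.Icc_subset_Icc_right hNL) ?_
          intro t ht _
          exact hnn t (Finset.mem_Icc.1 ht).1
  · push Not at hcase
    have hdm1 : dm l a Y (Ft ν hO φ (T0 + (1 : ℕ))) ≤ 0 := by
      unfold dm
      have h1 : (Finset.univ.filter fun i => l i ∈ Ft ν hO φ (T0 + (1 : ℕ))) = ∅ := by
        rw [Finset.filter_eq_empty_iff]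
        intro i _
        exact hcase i
      rw [h1]
      simp
    have hfr : 1 ≤ Module.finrank ℂ (Ft ν hO φ (T0 + (1 : ℕ))) := by
      rw [Nat.one_le_iff_ne_zero]
      intro h0
      exact hF1 (Submodule.finrank_eq_zero.1 h0)
    have hone : (N : ℤ) ≤ (N : ℤ) * (Module.finrank ℂ (Ft ν hO φ (T0 + (1 : ℕ))) : ℤ)
        - dm l a Y (Ft ν hO φ (T0 + (1 : ℕ))) := by
      have : (N : ℤ) * 1 ≤ (N : ℤ) * (Module.finrank ℂ (Ft ν hO φ (T0 + (1 : ℕ))) : ℤ) :=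
        mul_le_mul_of_nonneg_left (by exact_mod_cast hfr) (by positivity)
      linarith
    refine hone.trans ?_
    exact Finset.single_le_sum (f := fun t : ℕ => (N : ℤ) *
      (Module.finrank ℂ (Ft ν hO φ (T0 + (t : ℕ))) : ℤ) - dm l a Y (Ft ν hO φ (T0 + (t : ℕ))))
      (fun t ht => hnn t (Finset.mem_Icc.1 ht).1) (Finset.mem_Icc.2 ⟨le_rfl, hL0⟩)

end DS
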