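import Pool.Agent.Lib.MP_23b606_ag.DS.Rk

/-!
# DS/IrrA: partitions of small value in the irreducible case
-/

set_option autoImplicit false

open scoped BigOperators

namespace DS

variable {k V E : Type} [Field k] [AddCommGroup V] [Module k V] [FiniteDimensional k V]
  [Fintype E]

/-- If `RU(U, H)` fails for all `U < H < M` then for every `U ≤ H < M` there is a partition of
`{i : l i ∈ H ∖ U}` with `∑ (N rk B - 1) ≤ N (dim H - dim U)`.

Proof. Induction on `dim H`. `H = U`: the empty partition of `ix l U U = ∅`. `U < H < M`: there are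
`U ≤ M₀ < H` and a partition `P'` of `ix l M₀ H` with
`N dim M₀ + ∑_{P'} < N dim H + 1`; by induction there is a partition `P''` of `ix l U M₀` with
`∑_{P''} ≤ N (dim M₀ - dim U)`; take `P' ∪ P''` (`ix_union`, `IsPart.union`,
`Finset.sum_union`). -/
theorem exists_part_le (l : E → V) (N : ℕ) {U M : Submodule k V}
    (hirr : ∀ H : Submodule k V, U < H → H < M → ¬ RU l N U H) (H : Submodule k V) (h1 : U ≤ H)
    (h2 : H < M) : ∃ P : Finset (Finset E), IsPart P (ix l U H) ∧
      ∑ B ∈ P, fS k l N B ≤
        (N : ℤ) * ((Module.finrank k H : ℤ) - (Module.finrank k U : ℤ)) := by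
  classical
  induction hn : Module.finrank k H using Nat.strong_induction_on generalizing H with
  | _ n ih =>
    rcases h1.eq_or_lt with he | hlt
    · refine ⟨∅, ?_, ?_⟩
      · have : ix l U H = ∅ := by
          ext i
          rw [mem_ix, he]
          simp
        rw [this]
        exact IsPart.empty
      · subst he
        rw [Finset.sum_empty, hn, sub_self, mul_zero]
    · have h := hirr H hlt h2
      unfold RU at h
      push Not at h
      obtain ⟨M0, hU, hM, P', hP', hs⟩ := h
      obtain ⟨P, hP, hsum⟩ := ih (Module.finrank k M0)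
        (by rw [← hn]; exact Submodule.finrank_lt_finrank_of_lt hM) M0 hU (hM.trans h2) rfl
      obtain ⟨hu, hd⟩ := ix_union l hU hM.le
      obtain ⟨h3, h4⟩ := IsPart.union hP hP' hd
      refine ⟨P ∪ P', ?_, ?_⟩
      · rw [← hu]
        exact h3
      · rw [Finset.sum_union h4]
        rw [hn] at hs
        linarith

end DS
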