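import Pool.Agent.Lib.MP_23b606_ag.DS.IrrA

/-!
# DS/IrrB: the irreducible case (case (B) of Lemma Q)
-/

set_option autoImplicit false

open scoped BigOperators

namespace DS

variable {k V E : Type} [Field k] [AddCommGroup V] [Module k V] [FiniteDimensional k V]
  [Fintype E]

omit [FiniteDimensional k V] in
open Classical in
private theorem irrB_dm (l : E → V) (a : E → ℕ) (y : V) (G : Finset E)
    (ha : ∀ i, i ∉ G → a i = 0) (B : Submodule k V) :
    dm l a {y} B = ∑ i ∈ G.filter (fun i => l i ∈ B), (a i : ℤ) - (if y ∈ B then 1 else 0) := by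
  unfold dm
  have h1 : ∑ i ∈ Finset.univ.filter (fun i => l i ∈ B), (a i : ℤ) =
      ∑ i ∈ G.filter (fun i => l i ∈ B), (a i : ℤ) := by
    symm
    refine Finset.sum_subset (fun i hi => ?_) fun i hi hi' => ?_
    · rw [Finset.mem_filter] at hi ⊢
      exact ⟨Finset.mem_univ i, hi.2⟩
    · rw [Finset.mem_filter] at hi hi'
      rw [ha i fun h => hi' ⟨h, hi.2⟩, Nat.cast_zero]
  rw [h1]
  by_cases hy : y ∈ B
  · have h2 : Multiset.countP (fun y => y ∈ B) {y} = 1 := by
      rw [← Multiset.cons_zero, Multiset.countP_cons_of_pos _ hy, Multiset.countP_zero]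
    rw [h2, if_pos hy, Nat.cast_one]
  · have h2 : Multiset.countP (fun y => y ∈ B) {y} = 0 := by
      rw [← Multiset.cons_zero, Multiset.countP_cons_of_neg _ hy, Multiset.countP_zero]
    rw [h2, if_neg hy, Nat.cast_zero]

/-- **Case (B).** No `U < H < M` satisfies `RU(U, H)`.

Proof. `G = ix l U M`, `T = N (dim M - dim U) + 1`. By `RU(U, M)` with `M₀ = U` all partitions `P` of
`G` satisfy `∑_P (N rk B - 1) ≥ T`. `exists_poly` with `g = fS k l N` (`fS_nonneg`: `l i ≠ 0` for
`i ∈ G` since `l i ∉ U`; `fS_submod`) gives `a` supported in `G` with `a(S) ≤ N rk S - 1` for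
`∅ ≠ S ⊆ G`, `a(G) = T`.
(1) For `U ≤ H < M`: `a(ix l U H) ≤ N (dim H - dim U)`: sum `a(B) ≤ fS B` over the partition of
`exists_part_le`.
(2) The support `S₀` of `a` is nonempty (`T ≥ 1`), `T = a(S₀) ≤ N rk S₀ - 1`, so
`rk S₀ > dim M - dim U`; as `span (l '' S₀) ≤ M` there is `y ≠ 0` in `U ⊓ span (l '' S₀)`.
Take `Y = {y}`. Then `dm l a {y} B = a({i ∈ G : l i ∈ B}) - [y ∈ B]`.
(g4) `T - 1`. (g3) `U ≤ B < M`: `y ∈ U ≤ B` and (1) for `H = B`.
(g1) `{i ∈ G : l i ∈ B}` is empty (then `0 ≤ N dim B - 1`) or `a ≤ N rk - 1 ≤ N dim B - 1` (`rk_le`).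
(g2) `H = B ⊔ U`, `dim H - dim U = dim B - dim (B ⊓ U)`. If `H < M`: (1), since
`{i ∈ G : l i ∈ B} ⊆ ix l U H`. If `H = M`: either all `l i` with `a i ≠ 0` are in `B`, then `y ∈ B`
and `D(B) = T - 1`, or some `i` with `a i ≥ 1` has `l i ∉ B`, and `a(B) ≤ T - 1`. -/
theorem exists_of_irr (l : E → V) {N : ℕ} (hN : 1 ≤ N) {U M : Submodule k V} (hU : U ≠ ⊥)
    (hUM : U < M) (hR : RU l N U M)
    (hirr : ∀ H : Submodule k V, U < H → H < M → ¬ RU l N U H) :
    ∃ (a : E → ℕ) (Y : Multiset V), Gd l N U M a Y := by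
  classical
  have hdim : Module.finrank k U < Module.finrank k M := Submodule.finrank_lt_finrank_of_lt hUM
  obtain ⟨d, hd⟩ : ∃ d : ℕ, Module.finrank k M = Module.finrank k U + d :=
    ⟨_, (Nat.add_sub_cancel' hdim.le).symm⟩
  obtain ⟨T, hTd⟩ : ∃ T : ℕ, T = N * d + 1 := ⟨_, rfl⟩
  have hTz : (T : ℤ) = (N : ℤ) * ((Module.finrank k M : ℤ) - (Module.finrank k U : ℤ)) + 1 := by
    rw [hTd, hd]
    push_cast
    ring
  set G : Finset E := ix l U M with hG
  have hGm : ∀ i, i ∈ G ↔ l i ∈ M ∧ l i ∉ U := fun i => mem_ix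
  have hne0 : ∀ i ∈ G, l i ≠ 0 := by
    intro i hi h0
    apply ((hGm i).1 hi).2
    rw [h0]
    exact U.zero_mem
  obtain ⟨a, ha0, haS, haT⟩ := exists_poly (fS k l N) G T
    (fun S hS hne => by
      obtain ⟨i, hi⟩ := hne
      exact fS_nonneg l hN hi (hne0 i (hS hi)))
    (fun S _ S' _ _ => fS_submod l N S S')
    (fun P hP => by
      have h := hR U le_rfl hUM P hP
      rw [hTz]
      linarith)
  have haTz : ∑ i ∈ G, (a i : ℤ) = T := by
    rw [← haT]
    push_cast
    rfl
  -- (1)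
  have h1 : ∀ H : Submodule k V, U ≤ H → H < M → ∑ i ∈ ix l U H, (a i : ℤ) ≤
      (N : ℤ) * ((Module.finrank k H : ℤ) - (Module.finrank k U : ℤ)) := by
    intro H hUH hHM
    obtain ⟨P, hP, hle⟩ := exists_part_le l N hirr H hUH hHM
    have hsub : ix l U H ⊆ G := by
      intro i hi
      rw [mem_ix] at hi
      exact (hGm i).2 ⟨hHM.le hi.1, hi.2⟩
    rw [← hP.sum]
    refine (Finset.sum_le_sum fun B hB => ?_).trans hle
    exact haS B ((hP.subset hB).trans hsub) (hP.ne B hB)
  -- (2)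
  set S0 : Finset E := G.filter fun i => a i ≠ 0 with hS0
  have hS0sum : ∑ i ∈ S0, (a i : ℤ) = T := by
    rw [← haTz]
    refine Finset.sum_subset (Finset.filter_subset _ _) fun i hi hi' => ?_
    have : a i = 0 := by
      by_contra h
      exact hi' (Finset.mem_filter.2 ⟨hi, h⟩)
    rw [this, Nat.cast_zero]
  have hS0ne : S0.Nonempty := by
    rw [Finset.nonempty_iff_ne_empty]
    intro h
    rw [h, Finset.sum_empty] at hS0sum
    rw [hTd] at hS0sum
    push_cast at hS0sum
    have : (0 : ℤ) ≤ N * d := by positivity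
    linarith
  have hS0f := haS S0 (Finset.filter_subset _ _) hS0ne
  rw [hS0sum] at hS0f
  set W : Submodule k V := Submodule.span k (l '' (S0 : Set E)) with hW
  have hWM : W ≤ M := by
    rw [hW, Submodule.span_le]
    rintro _ ⟨i, hi, rfl⟩
    exact ((hGm i).1 (Finset.mem_filter.1 (Finset.mem_coe.1 hi)).1).1
  have hrkW : rk k l S0 = Module.finrank k W := rfl
  have hlt : d < Module.finrank k W := by
    unfold fS at hS0f
    rw [hrkW] at hS0f
    by_contra hcon
    push Not at hcon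
    have h2 : (N : ℤ) * (Module.finrank k W : ℤ) ≤ N * d :=
      mul_le_mul_of_nonneg_left (by exact_mod_cast hcon) (Nat.cast_nonneg N)
    rw [hTd] at hS0f
    push_cast at hS0f
    linarith
  obtain ⟨y, hyU, hyW, hy0⟩ : ∃ y, y ∈ U ∧ y ∈ W ∧ y ≠ 0 := by
    have h2 := Submodule.finrank_sup_add_finrank_inf_eq U W
    have h3 : Module.finrank k ↥(U ⊔ W) ≤ Module.finrank k M :=
      Submodule.finrank_mono (sup_le hUM.le hWM)
    have h4 : 0 < Module.finrank k ↥(U ⊓ W) := by omega
    have h5 : U ⊓ W ≠ ⊥ := by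
      intro h
      rw [h, finrank_bot] at h4
      omega
    obtain ⟨y, hy, hy0⟩ := Submodule.exists_mem_ne_zero_of_ne_bot h5
    exact ⟨y, (Submodule.mem_inf.1 hy).1, (Submodule.mem_inf.1 hy).2, hy0⟩
  have hdm := irrB_dm (k := k) l a y G ha0
  have hyM : y ∈ M := hUM.le hyU
  have hsB : ∀ B : Submodule k V, ∑ i ∈ G.filter (fun i => l i ∈ B), (a i : ℤ) ≤ T := by
    intro B
    rw [← haTz]
    exact Finset.sum_le_sum_of_subset_of_nonneg (Finset.filter_subset _ _) fun i _ _ =>
      Nat.cast_nonneg _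
  have hsub : ∀ B H : Submodule k V, B ≤ H → ∑ i ∈ G.filter (fun i => l i ∈ B), (a i : ℤ) ≤
      ∑ i ∈ ix l U H, (a i : ℤ) := by
    intro B H hBH
    refine Finset.sum_le_sum_of_subset_of_nonneg (fun i hi => ?_) fun i _ _ => Nat.cast_nonneg _
    rw [Finset.mem_filter] at hi
    rw [mem_ix]
    exact ⟨hBH hi.2, ((hGm i).1 hi.1).2⟩
  refine ⟨a, {y}, ⟨?_, ?_, ?_, ?_, ?_, ?_⟩⟩
  · intro i hi
    have h2 : i ∈ G := by
      by_contra h
      exact hi (ha0 i h)
    exact (hGm i).1 h2
  · intro z hz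
    rw [Multiset.mem_singleton] at hz
    rw [hz]
    exact ⟨hyM, hy0⟩
  · intro B hBM hB hBU
    rw [hdm B]
    have hpos : 0 < Module.finrank k B := by
      rw [pos_iff_ne_zero]
      intro h
      exact hB (Submodule.finrank_eq_zero.1 h)
    have h3 : ∑ i ∈ G.filter (fun i => l i ∈ B), (a i : ℤ) ≤
        (N : ℤ) * (Module.finrank k B : ℤ) - 1 := by
      rcases (G.filter fun i => l i ∈ B).eq_empty_or_nonempty with h | h
      · rw [h, Finset.sum_empty]
        have h4 : (1 : ℤ) * 1 ≤ (N : ℤ) * (Module.finrank k B : ℤ) :=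
          mul_le_mul (by exact_mod_cast hN) (by exact_mod_cast hpos) (by norm_num)
            (Nat.cast_nonneg N)
        linarith
      · refine (haS _ (Finset.filter_subset _ _) h).trans ?_
        unfold fS
        have h4 : rk k l (G.filter fun i => l i ∈ B) ≤ Module.finrank k B :=
          rk_le l fun i hi => (Finset.mem_filter.1 hi).2
        have h5 : (N : ℤ) * (rk k l (G.filter fun i => l i ∈ B) : ℤ) ≤
            (N : ℤ) * (Module.finrank k B : ℤ) :=
          mul_le_mul_of_nonneg_left (by exact_mod_cast h4) (Nat.cast_nonneg N)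
        linarith
    split_ifs <;> linarith
  · intro B hBM hBU hUB
    rw [hdm B]
    have hH := Submodule.finrank_sup_add_finrank_inf_eq B U
    have hHz : (Module.finrank k B : ℤ) - (Module.finrank k ↥(B ⊓ U) : ℤ) =
        (Module.finrank k ↥(B ⊔ U) : ℤ) - (Module.finrank k U : ℤ) := by
      have h2 : (Module.finrank k ↥(B ⊔ U) : ℤ) + (Module.finrank k ↥(B ⊓ U) : ℤ) =
          (Module.finrank k B : ℤ) + (Module.finrank k U : ℤ) := by exact_mod_cast hH
      linarith
    rw [hHz]
    rcases (sup_le hBM hUM.le).lt_or_eq with h2 | h2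
    · have h3 := (hsub B (B ⊔ U) le_sup_left).trans (h1 (B ⊔ U) le_sup_right h2)
      split_ifs <;> linarith
    · rw [h2]
      by_cases h3 : ∀ i ∈ S0, l i ∈ B
      · have h4 : y ∈ B := by
          have h5 : W ≤ B := by
            rw [hW, Submodule.span_le]
            rintro _ ⟨i, hi, rfl⟩
            exact h3 i (Finset.mem_coe.1 hi)
          exact h5 hyW
        rw [if_pos h4]
        have h5 := hsB B
        linarith
      · push Not at h3
        obtain ⟨i, hi, hiB⟩ := h3
        rw [hS0, Finset.mem_filter] at hi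
        have h5 : ∑ j ∈ G.filter (fun j => l j ∈ B), (a j : ℤ) + a i ≤ T := by
          have h6 : i ∉ G.filter fun j => l j ∈ B := fun h => hiB (Finset.mem_filter.1 h).2
          rw [← haTz, add_comm, ← Finset.sum_insert (f := fun j => (a j : ℤ)) h6]
          refine Finset.sum_le_sum_of_subset_of_nonneg (fun j hj => ?_) fun j _ _ =>
            Nat.cast_nonneg _
          rcases Finset.mem_insert.1 hj with rfl | hj
          · exact hi.1
          · exact (Finset.mem_filter.1 hj).1
        have h6 : (1 : ℤ) ≤ a i := by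
          exact_mod_cast Nat.one_le_iff_ne_zero.2 hi.2
        split_ifs <;> linarith
  · intro B hUB hBM
    rw [hdm B, if_pos (hUB hyU)]
    have h3 := (hsub B B le_rfl).trans (h1 B hUB hBM)
    linarith
  · rw [hdm M, if_pos hyM]
    have h3 : G.filter (fun i => l i ∈ M) = G := by
      rw [Finset.filter_true_of_mem]
      intro i hi
      exact ((hGm i).1 hi).1
    rw [h3, haTz, hTz]
    ring

end DS
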