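import Pool.Agent.Lib.MP_23b606_ag.T3.Sch

/-!
# DS/Jy: the affine coordinates of the base are a transcendence basis
-/

set_option autoImplicit false

open scoped BigOperators

namespace DS

open T1

variable {K : Type} [Field K] [Algebra ℂ K] {n : ℕ}

/-- The differentials of algebraically independent functions have dual derivations. -/
private theorem jy_jac {x : Fin n → K} (hx : AlgebraicIndependent ℂ x) :
    ∃ D : Fin n → Derivation ℂ K K, jac D x ≠ 0 := by
  classical
  have hli : LinearIndependent K fun i : Fin n => KaehlerDifferential.D ℂ K (x i) :=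
    linearIndependent_D x hx
  set v := fun i : Fin n => KaehlerDifferential.D ℂ K (x i) with hv
  let b := Module.Basis.span hli
  have hφ : ∀ i, ∃ φ : Ω[K⁄ℂ] →ₗ[K] K, ∀ j, φ (v j) = if j = i then 1 else 0 := by
    intro i
    obtain ⟨φ, hφ⟩ := LinearMap.exists_extend (b.coord i)
    refine ⟨φ, fun j => ?_⟩
    have h1 : (b j : Ω[K⁄ℂ]) = v j := congrArg Subtype.val (Module.Basis.span_apply hli j)
    rw [← h1]
    have h2 : φ (b j : Ω[K⁄ℂ]) = (b.coord i) (b j) := by rw [← hφ]; rfl
    rw [h2, Module.Basis.coord_apply, Module.Basis.repr_self, Finsupp.single_apply]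
  choose φ hφ using hφ
  refine ⟨fun i => (φ i).compDer (KaehlerDifferential.D ℂ K), ?_⟩
  have h2 : (Matrix.of fun i j => ((φ i).compDer (KaehlerDifferential.D ℂ K)) (x j))
      = (1 : Matrix (Fin n) (Fin n) K) := by
    ext i j
    rw [Matrix.of_apply, Matrix.one_apply]
    show φ i (v j) = _
    rw [hφ i j]
    simp [eq_comm]
  unfold jac
  rw [h2, Matrix.det_one]
  exact one_ne_zero

/-- `K = ℂ(x)`, the powers `x i ^ N` are linear combinations of `1` and the `y j`, and
`trdeg K = n`: then `y` is a transcendence basis, and some Jacobian determinant of `y` is not `0`.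

Proof: all `x i` are algebraic over `ℂ(y)`, hence `K` is, so `y` contains a transcendence basis and
has `n = trdeg` members: it is algebraically independent. The differentials are linearly
independent (`T1.linearIndependent_D`), so `W y ≠ 0` (see `T4.W_ne_zero`) and
`T1.exists_jac_ne_zero`. -/
theorem exists_jac_y (htr : Algebra.trdeg ℂ K = n) {E : Type} (x : E → K) {N : ℕ} (hN : 1 ≤ N)
    (hgen : IntermediateField.adjoin ℂ (Set.range x) = ⊤) (y : Fin n → K)
    (hy : ∀ i, x i ^ N ∈ Submodule.span ℂ (insert (1 : K) (Set.range y))) :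
    ∃ D : Fin n → Derivation ℂ K K, jac D y ≠ 0 := by
  classical
  apply jy_jac
  have hA : ∀ i, x i ^ N ∈ Algebra.adjoin ℂ (Set.range y) := by
    intro i
    have h1 : Submodule.span ℂ (insert (1 : K) (Set.range y)) ≤
        Subalgebra.toSubmodule (Algebra.adjoin ℂ (Set.range y)) := by
      rw [Submodule.span_le]
      rintro z (rfl | hz)
      · exact one_mem (Algebra.adjoin ℂ (Set.range y))
      · exact Algebra.subset_adjoin hz
    exact h1 (hy i)
  have hx : ∀ i, IsAlgebraic (Algebra.adjoin ℂ (Set.range y)) (x i) := fun i =>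
    IsAlgebraic.of_pow hN
      (isAlgebraic_algebraMap (⟨x i ^ N, hA i⟩ : Algebra.adjoin ℂ (Set.range y)))
  have halg : Algebra.IsAlgebraic (Algebra.adjoin ℂ (Set.range y)) K := by
    refine ⟨fun z => ?_⟩
    have hz : z ∈ IntermediateField.adjoin ℂ (Set.range x) := by
      rw [hgen]
      trivial
    refine IntermediateField.adjoin_induction ℂ
      (p := fun z _ => IsAlgebraic (Algebra.adjoin ℂ (Set.range y)) z) ?_ ?_ ?_ ?_ ?_ hz
    · rintro _ ⟨i, rfl⟩
      exact hx i
    · intro c
      have h1 : algebraMap ℂ K c = algebraMap (Algebra.adjoin ℂ (Set.range y)) K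
          (algebraMap ℂ (Algebra.adjoin ℂ (Set.range y)) c) := rfl
      rw [h1]
      exact isAlgebraic_algebraMap _
    · intro a b _ _ ha hb
      exact ha.add hb
    · intro a _ ha
      exact ha.inv
    · intro a b _ _ ha hb
      exact ha.mul hb
  obtain ⟨t, ht, hb⟩ := exists_isTranscendenceBasis_subset (R := ℂ) (Set.range y)
  have hc := hb.cardinalMk_eq_trdeg
  rw [htr, ← Cardinal.mk_fin n] at hc
  obtain ⟨τ⟩ := Cardinal.eq.1 hc
  have hs : ∀ s : t, ∃ i : Fin n, y i = s := fun s => ht s.2
  choose σ hσ using hs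
  have hσi : Function.Injective σ := by
    intro s s' h
    apply Subtype.ext
    rw [← hσ s, ← hσ s', h]
  have hcomp : Function.Injective (σ ∘ τ.symm) := hσi.comp τ.symm.injective
  have hsur : Function.Surjective (σ ∘ τ.symm) := Finite.surjective_of_injective hcomp
  have hbij : Function.Bijective σ := ⟨hσi, fun i => by
    obtain ⟨j, hj⟩ := hsur i
    exact ⟨τ.symm j, hj⟩⟩
  have h1 := hb.1.comp _ (Equiv.ofBijective σ hbij).symm.injective
  have h2 : (fun s : t => (s : K)) ∘ (Equiv.ofBijective σ hbij).symm = y := by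
    funext i
    have h3 := hσ ((Equiv.ofBijective σ hbij).symm i)
    have h4 : σ ((Equiv.ofBijective σ hbij).symm i) = i :=
      (Equiv.ofBijective σ hbij).apply_symm_apply i
    rw [h4] at h3
    exact h3.symm
  rw [← h2]
  exact h1

end DS
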