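import Pool.Agent.Lib.MP_23b606_ag.T1.Jac
import Pool.Agent.Lib.MP_23b606_ag.PQ.Log

/-!
# DS/Log: logarithmic forms at a discrete valuation ring
-/

set_option autoImplicit false

open scoped BigOperators

namespace DS

open T1

variable {K : Type} [Field K] [Algebra ℂ K] {n : ℕ}

theorem W_ne_of_jac {w : Fin n → K} (hw : ∃ D : Fin n → Derivation ℂ K K, jac D w ≠ 0) :
    W w ≠ 0 := by
  obtain ⟨D, hD⟩ := hw
  intro h
  apply hD
  have h1 := jac_eq_of_W w w 0 (by rw [h, smul_zero]) D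
  rw [h1, zero_mul]

/-- All top forms are proportional. -/
theorem exists_ratio (htr : Algebra.trdeg ℂ K = n) (w a : Fin n → K)
    (hw : ∃ D : Fin n → Derivation ℂ K K, jac D w ≠ 0) :
    ∃ j : K, ∀ D : Fin n → Derivation ℂ K K, jac D a = j * jac D w := by
  obtain ⟨j, hj⟩ := PQ.exists_smul_W htr a w (W_ne_of_jac hw)
  exact ⟨j, jac_eq_of_W a w j hj⟩

/-- **The logarithmic form lemma**: `dw_1/w_1 ∧ … ∧ dw_n/w_n` has order at least `-1`, and at least
`0` if all the `w i` are units. -/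
theorem log_form (htr : Algebra.trdeg ℂ K = n) (w : Fin n → K) (hw0 : ∀ i, w i ≠ 0)
    (hw : ∃ D : Fin n → Derivation ℂ K K, jac D w ≠ 0) {O : ValuationSubring K} (ν : NVal O)
    (hO : ∀ c : ℂ, algebraMap ℂ K c ∈ O) :
    ∃ (a : Fin n → K) (j : K), (∀ i, a i ∈ O) ∧ j ≠ 0 ∧
      (∀ D : Fin n → Derivation ℂ K K, jac D a = j * jac D w) ∧
      ν.v j ≤ 1 - ∑ i, ν.v (w i) ∧ ((∀ i, ν.v (w i) = 0) → ν.v j ≤ 0) := by
  by_cases h : ∀ i, ν.v (w i) = 0
  · refine ⟨w, 1, fun i => (ν.mem _ (hw0 i)).2 (h i).ge, one_ne_zero, fun D => (one_mul _).symm,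
      ?_, fun _ => ν.one.le⟩
    rw [ν.one, Finset.sum_eq_zero fun i _ => h i]
    norm_num
  · push Not at h
    obtain ⟨i0, hi0⟩ := h
    obtain ⟨a, j, h1, h2, h3, h4⟩ := PQ.log_form htr ν hO w hw0 (W_ne_of_jac hw) i0 hi0
    exact ⟨a, j, h1, h2, jac_eq_of_W a w j h3, h4, fun h => absurd (h i0) hi0⟩

end DS
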