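import Pool.Agent.Lib.MP_23b606_ag.DS.Defs

/-!
# DS/Rel: linear relations adapted to a partition
-/

set_option autoImplicit false

open scoped BigOperators

namespace DS

/-- Rank and nullity of the map of linear combinations of a finite family. -/
private theorem rel_rank {k V ι : Type} [Field k] [AddCommGroup V] [Module k V] [Fintype ι]
    (l : ι → V) : Module.finrank k (Submodule.span k (Set.range l)) +
      Module.finrank k (LinearMap.ker (Fintype.linearCombination k l)) = Fintype.card ι := by
  have h := LinearMap.finrank_range_add_finrank_ker (Fintype.linearCombination k l)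
  rw [Fintype.range_linearCombination, Module.finrank_fintype_fun_eq_card] at h
  exact h

/-- A basis of the linear relations of the vectors `l i` which extends bases of the spaces of the
relations supported in the parts of a partition.

Proof. `R = ker (c ↦ ∑ c i • l i)`, of dimension `|E| - r`, `r` the rank of all `l i`. For `B ∈ P` the
space `R_B` of the relations supported in `B` has dimension `|B| - rk B`, and the sum of the `R_B` is
direct (disjoint supports), of dimension `∑ (|B| - rk B) = |E| - ∑ rk B`. Take bases of the `R_B`,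
together linearly independent (indexed by a sigma type `α`), and extend them to a basis of `R`
(`β`, `|β| = (|E| - r) - (|E| - ∑ rk B) = ∑ rk B - r`). -/
theorem exists_rel {k V E : Type} [Field k] [AddCommGroup V] [Module k V] [Fintype E] (l : E → V)
    {P : Finset (Finset E)} (hP : IsPart P Finset.univ) :
    ∃ (α β : Type) (_ : Fintype α) (_ : Fintype β) (c : α ⊕ β → E → k), LinearIndependent k c ∧
      (∀ q, ∑ i, c q i • l i = 0) ∧
      (∀ q : α, ∃ B ∈ P, ∀ i, c (Sum.inl q) i ≠ 0 → i ∈ B) ∧
      Fintype.card α + Fintype.card β + rk k l Finset.univ = Fintype.card E ∧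
      Fintype.card β + rk k l Finset.univ = ∑ B ∈ P, rk k l B := by
  classical
  -- the relations inside one part
  let K : (B : {B // B ∈ P}) → Submodule k (B.1 → k) := fun B =>
    LinearMap.ker (Fintype.linearCombination k (fun i : B.1 => l i))
  let bas : (B : {B // B ∈ P}) → Module.Basis (Fin (Module.finrank k (K B))) k (K B) :=
    fun B => Module.finBasis k (K B)
  let α : Type := Σ B : {B // B ∈ P}, Fin (Module.finrank k (K B))
  let v : α → E → k := fun q i => if h : i ∈ q.1.1 then (bas q.1 q.2 : q.1.1 → k) ⟨i, h⟩ else 0
  have hv0 : ∀ q : α, ∀ i, i ∉ q.1.1 → v q i = 0 := fun q i h => dif_neg h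
  have hv1 : ∀ q : α, ∀ i (h : i ∈ q.1.1), v q i = (bas q.1 q.2 : q.1.1 → k) ⟨i, h⟩ :=
    fun q i h => dif_pos h
  have hrelv : ∀ q : α, ∑ i, v q i • l i = 0 := by
    intro q
    have h1 : Fintype.linearCombination k (fun i : q.1.1 => l i) (bas q.1 q.2 : q.1.1 → k) = 0 :=
      (bas q.1 q.2).2
    rw [Fintype.linearCombination_apply] at h1
    rw [← Finset.sum_subset (Finset.subset_univ q.1.1) (fun i _ hi => by rw [hv0 q i hi, zero_smul]),
      ← h1, ← Finset.sum_coe_sort q.1.1]
    exact Finset.sum_congr rfl fun i _ => by rw [hv1 q i i.2]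
  have hlin : LinearIndependent k v := by
    rw [Fintype.linearIndependent_iff]
    intro g hg
    rintro ⟨B, j⟩
    have h1 : ∑ j' : Fin (Module.finrank k (K B)), g ⟨B, j'⟩ • (bas B j' : B.1 → k) = 0 := by
      funext i
      have h2 := congrFun hg i.1
      rw [Finset.sum_apply, Fintype.sum_sigma] at h2
      rw [Finset.sum_eq_single B] at h2
      · rw [Finset.sum_apply]
        refine Eq.trans ?_ h2
        refine Finset.sum_congr rfl fun j' _ => ?_
        rw [Pi.smul_apply, Pi.smul_apply, hv1 ⟨B, j'⟩ i.1 i.2]
      · intro B' _ hB'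
        refine Finset.sum_eq_zero fun j' _ => ?_
        rw [Pi.smul_apply, hv0 ⟨B', j'⟩ i.1 (fun h => hB' (Subtype.ext
          (hP.disj B'.1 B'.2 B.1 B.2 i.1 h i.2))), smul_zero]
      · intro h
        exact absurd (Finset.mem_univ B) h
    have h3 : ∑ j' : Fin (Module.finrank k (K B)), g ⟨B, j'⟩ • (bas B j') = 0 := by
      apply Subtype.ext
      rw [Submodule.coe_sum, Submodule.coe_zero]
      exact h1
    exact Fintype.linearIndependent_iff.1 (bas B).linearIndependent _ h3 j
  -- all relations
  let R : Submodule k (E → k) := LinearMap.ker (Fintype.linearCombination k l)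
  let U : Submodule k (E → k) := Submodule.span k (Set.range v)
  have hUR : U ≤ R := by
    rw [Submodule.span_le]
    rintro _ ⟨q, rfl⟩
    rw [SetLike.mem_coe, LinearMap.mem_ker, Fintype.linearCombination_apply]
    exact hrelv q
  obtain ⟨U2, hU2⟩ := Submodule.exists_isCompl U
  let W : Submodule k (E → k) := U2 ⊓ R
  have hdisj : Disjoint U W := hU2.disjoint.mono_right inf_le_left
  have hsup : U ⊔ W = R := by
    show U ⊔ U2 ⊓ R = R
    rw [← sup_inf_assoc_of_le U2 hUR, hU2.sup_eq_top, top_inf_eq]
  let bW := Module.finBasis k W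
  let w : Fin (Module.finrank k W) → E → k := fun j => bW j
  have hw : LinearIndependent k w := bW.linearIndependent.map' W.subtype W.ker_subtype
  have hcardW : Module.finrank k U + Module.finrank k W = Module.finrank k R := by
    have h1 := Submodule.finrank_sup_add_finrank_inf_eq U W
    rw [hsup, hdisj.eq_bot, finrank_bot, add_zero] at h1
    exact h1.symm
  have hcardU : Module.finrank k U = Fintype.card α := finrank_span_eq_card hlin
  have hR : rk k l Finset.univ + Module.finrank k R = Fintype.card E := by
    have h1 := rel_rank (k := k) l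
    unfold rk
    rwa [Finset.coe_univ, Set.image_univ]
  have hB : ∀ B : {B // B ∈ P}, rk k l B.1 + Module.finrank k (K B) = B.1.card := by
    intro B
    have h1 := rel_rank (k := k) (fun i : B.1 => l i)
    have h2 : Set.range (fun i : B.1 => l i) = l '' (B.1 : Set E) := by
      ext x
      simp
    rw [h2, Fintype.card_coe] at h1
    exact h1
  have hcardA : Fintype.card α + ∑ B ∈ P, rk k l B = Fintype.card E := by
    have h1 : Fintype.card α = ∑ B : {B // B ∈ P}, Module.finrank k (K B) := by
      show Fintype.card (Σ B : {B // B ∈ P}, Fin (Module.finrank k (K B))) = _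
      rw [Fintype.card_sigma]
      simp
    have h2 : ∑ B ∈ P, rk k l B = ∑ B : {B // B ∈ P}, rk k l B.1 :=
      (Finset.sum_coe_sort P (fun B => rk k l B)).symm
    have h3 : ∑ B : {B // B ∈ P}, B.1.card = Fintype.card E := by
      rw [Finset.sum_coe_sort P (fun B => B.card)]
      have h4 := hP.sum (fun _ => (1 : ℕ))
      simpa using h4
    rw [h1, h2, ← Finset.sum_add_distrib, ← h3]
    exact Finset.sum_congr rfl fun B _ => by rw [← hB B, add_comm]
  refine ⟨α, Fin (Module.finrank k W), inferInstance, inferInstance, Sum.elim v w,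
    hlin.sum_type hw (hdisj.mono_right ?_), ?_, ?_, ?_, ?_⟩
  · rw [Submodule.span_le]
    rintro _ ⟨j, rfl⟩
    exact (bW j).2
  · rintro (q | j)
    · exact hrelv q
    · have h1 : w j ∈ R := (bW j).2.2
      rw [LinearMap.mem_ker, Fintype.linearCombination_apply] at h1
      exact h1
  · intro q
    refine ⟨q.1.1, q.1.2, fun i hi => ?_⟩
    by_contra h
    exact hi (hv0 q i h)
  · rw [Fintype.card_fin]
    omega
  · rw [Fintype.card_fin]
    omega

end DS
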