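import Pool.Agent.Lib.MP_23b606_ag.T1.C.ThmC
import Pool.Agent.Lib.MP_23b606_ag.T1.U.Uni
import Pool.Agent.Lib.MP_23b606_ag.DS.Circ
import Pool.Agent.Lib.MP_23b606_ag.DS.Rel

/-!
# DS/Uni: decomposable arrangements give uniruled varieties
-/

set_option autoImplicit false

open scoped BigOperators

namespace DS

open T1

/-- **Uniruledness.** `r = n + 1` is the rank of `1, x_1^N, …`; if there is a partition into
`s ≥ 2` parts with `N (∑ rk B - r) < s` then `K` is uniruled.

Proof. `exists_rel` for `l = lx N x`, `circ_part`, `Pt` with `chi_pt`, `adjoin_chi`, `ev_fr` (`dim`: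
`n + |α ⊕ β| = |ι| = finrank ℤ (ι → ℤ)`), `ind_fr`. With `χ'` the composition with
`K → AlgebraicClosure K` (as in `T1.main_aux`): if both `OnlyTriv 1` and `OnlyTriv 2` hold then
`WSys.thmC` with `T1.idx_le` and `w = 1` gives
`|P| = #{q : dd = 1} + 1 = 1` by `dvd_dd_fr` and `N ≥ 2`, a contradiction; otherwise
`T1.uniruled_of_sol`. -/
theorem uniruled_of_part {ι : Type} [Fintype ι] {K : Type} [Field K] [Algebra ℂ K] (x : ι → K)
    (hx : ∀ i, x i ≠ 0) {N : ℕ} (hN : 2 ≤ N)
    (hgen : IntermediateField.adjoin ℂ (Set.range x) = ⊤) {n : ℕ}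
    (htr : Algebra.trdeg ℂ K = n) (hr : rk ℂ (lx N x) Finset.univ = n + 1)
    {P : Finset (Finset (Option ι))} (hP : IsPart P Finset.univ) (h2 : 2 ≤ P.card)
    (hlt : N * ∑ B ∈ P, rk ℂ (lx N x) B < P.card + N * (n + 1)) : Uniruled K := by
  classical
  obtain ⟨α, β, hFα, hFβ, c, hcI, hrel, hα, hcard, hβ⟩ := exists_rel (k := ℂ) (lx N x) hP
  have hN1 : 1 ≤ N := by omega
  rw [hr] at hcard hβ
  have hβ' : N * Fintype.card β + 1 ≤ P.card := by
    rw [← hβ, mul_add] at hlt
    omega
  have hC := circ_part hN1 hP h2 c (fun q => hcI.ne_zero q) hα hβ'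
  have hI := ind_fr x hx hN1 c hcI hrel
  have hχ : Pt (fun q => fr N (c q)) (chi x hx) n := by
    refine ⟨adjoin_chi x hx hgen, fun q => ?_, htr, ?_⟩
    · rw [ev_fr]
      exact hrel q
    · rw [Module.finrank_fintype_fun_eq_card, Fintype.card_sum]
      rw [Fintype.card_option] at hcard
      omega
  have hne : Nonempty P := by
    obtain ⟨B, hB⟩ := Finset.card_pos.1 (by omega : 0 < P.card)
    exact ⟨⟨B, hB⟩⟩
  let χ' : Multiplicative (ι → ℤ) →* AlgebraicClosure K :=
    ((algebraMap K (AlgebraicClosure K)) : K →* AlgebraicClosure K).comp (chi x hx)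
  have hχ' : ∀ m, χ' m = algebraMap K (AlgebraicClosure K) (chi x hx m) := fun m => rfl
  have hz : ∀ q, ev χ' (fr N (c q)) = 0 := by
    intro q
    have h := hχ.zero q
    have h2 : ev χ' (fr N (c q)) =
        algebraMap K (AlgebraicClosure K) (ev (chi x hx) (fr N (c q))) := by
      simp only [ev, Finsupp.sum, map_sum, map_mul, hχ']
      refine Finset.sum_congr rfl fun m _ => ?_
      rw [← IsScalarTower.algebraMap_apply]
    rw [h2]
    have h3 : ev (chi x hx) (fr N (c q)) = 0 := h
    rw [h3, map_zero]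
  have : CharZero (AlgebraicClosure K) := by
    have h : Function.Injective (algebraMap ℂ (AlgebraicClosure K)) :=
      (algebraMap ℂ (AlgebraicClosure K)).injective
    exact (RingHom.charZero_iff h).1 inferInstance
  by_cases h12 : (sysOf χ' hC hz).OnlyTriv 1 ∧ (sysOf χ' hC hz).OnlyTriv 2
  · exfalso
    obtain ⟨hcount, -⟩ := (sysOf χ' hC hz).thmC h12.1 h12.2 (idx_le hC)
    have h1 := hcount 1 le_rfl
    have e1 : Nat.card {j : P // (sysOf χ' hC hz).lam j = 1} = P.card := by
      have : Nat.card {j : P // (sysOf χ' hC hz).lam j = 1} = Nat.card P :=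
        Nat.card_congr (Equiv.subtypeUnivEquiv fun j => rfl)
      rw [this, Nat.card_eq_fintype_card, Fintype.card_coe]
    have e2 : Nat.card {q : α ⊕ β // (sysOf χ' hC hz).d q = 1} = 0 := by
      have : IsEmpty {q : α ⊕ β // (sysOf χ' hC hz).d q = 1} := by
        refine ⟨fun q => ?_⟩
        have h3 : N ∣ (sysOf χ' hC hz).d q.1 := dvd_dd_fr hN1 (c q.1) P
        rw [q.2] at h3
        have := Nat.le_of_dvd one_pos h3
        omega
      exact Nat.card_eq_zero.2 (Or.inl this)
    rw [e1, e2, if_pos rfl] at h1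
    omega
  · rw [not_and_or] at h12
    rcases h12 with h12 | h12
    · unfold WSys.OnlyTriv at h12
      push Not at h12
      obtain ⟨R, hR, hnt⟩ := h12
      exact uniruled_of_sol (chi x hx) hI hχ hC χ' hχ' hz 1 R hR hnt
    · unfold WSys.OnlyTriv at h12
      push Not at h12
      obtain ⟨R, hR, hnt⟩ := h12
      exact uniruled_of_sol (chi x hx) hI hχ hC χ' hχ' hz 2 R hR hnt

end DS
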