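import Pool.Agent.Lib.MP_23b606_ag.DS.Reg
import Pool.Agent.Lib.MP_23b606_ag.DS.Uni
import Pool.Agent.Lib.MP_23b606_ag.DS.Eqs

/-!
# DS/Main: diagonal systems

`K = ℂ(x_i)` is the function field of a component (of dimension `n`) of a system of diagonal
equations `∑_i a_qi x_i^N = b_q`, with independent rows `a_q`, in as many equations as the codimension.
For a set `B` of indices (`none` stands for the constant `1`) `rk B` is the dimension of the span
of the `x_i^N`, `i ∈ B`.
-/

set_option autoImplicit false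

open scoped BigOperators

namespace DS

open T1

/-- A nonzero `m`-canonical form which is regular at all divisorial valuation rings. -/
def HasForm (K : Type) [Field K] [Algebra ℂ K] (n m : ℕ) : Prop :=
  ∃ (y : Fin n → K) (g : K), (∃ D : Fin n → Derivation ℂ K K, jac D y ≠ 0) ∧ g ≠ 0 ∧
    ∀ O : ValuationSubring K, IsDiv n O → RegularAt O y m g

theorem HasForm.not_kodairaNegInf {K : Type} [Field K] [Algebra ℂ K] {n m : ℕ} (hm : 1 ≤ m)
    (h : HasForm K n m) : ¬ KodairaNegInf K n := by
  obtain ⟨y, g, hy, hg, hO⟩ := h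
  exact fun hK => hg (hK y m g hy hm hO)

/-- `1` and the `N`-th powers of the coordinates. -/
def pw {ι K : Type} [Field K] (N : ℕ) (x : ι → K) (o : Option ι) : K :=
  o.elim 1 fun i => x i ^ N

/-- A bad partition: the parts `B` satisfy `N (∑ rk B - (n + 1)) < s`, `s ≥ 2` the number of
parts. -/
def BadPart {ι K : Type} [Fintype ι] [Field K] [Algebra ℂ K] (N n : ℕ) (x : ι → K)
    (P : Finset (Finset (Option ι))) : Prop :=
  IsPart P Finset.univ ∧ 2 ≤ P.card ∧
    N * ∑ B ∈ P, rk ℂ (pw N x) B < P.card + N * (n + 1)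

theorem main {K : Type} [Field K] [Algebra ℂ K] {ι κ : Type} [Fintype ι] [Fintype κ] {N n : ℕ}
    (hN : 2 ≤ N) (A : κ → ι → ℂ) (hA : LinearIndependent ℂ A) (b : κ → ℂ) (x : ι → K)
    (hx : ∀ i, x i ≠ 0) (hgen : IntermediateField.adjoin ℂ (Set.range x) = ⊤)
    (hAb : ∀ q, ∑ i, algebraMap ℂ K (A q i) * x i ^ N = algebraMap ℂ K (b q))
    (htr : Algebra.trdeg ℂ K = n) (hdim : n + Fintype.card κ = Fintype.card ι) :
    ((∃ P, BadPart N n x P) → Uniruled K) ∧ ((¬ ∃ P, BadPart N n x P) → HasForm K n N) := by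
  have hN1 : 1 ≤ N := by omega
  have hpw : pw N x = lx N x := rfl
  have hr : rk ℂ (lx N x) Finset.univ = n + 1 := by
    have h1 := rk_lx_ge x hN1 hgen htr
    have h2 := rk_lx_le x N A hA b hAb
    omega
  constructor
  · rintro ⟨P, hP, h2, hlt⟩
    exact uniruled_of_part x hx hN hgen htr hr hP h2 hlt
  · intro hno
    let W : Submodule ℂ K := Submodule.span ℂ (Set.range (lx N x))
    have hfin : FiniteDimensional ℂ W := FiniteDimensional.span_of_finite ℂ (Set.finite_range _)
    let l : Option ι → W := fun o => ⟨lx N x o, Submodule.subset_span ⟨o, rfl⟩⟩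
    let x' : Option ι → K := fun o => o.elim 1 x
    have hφ : Function.Injective W.subtype := Subtype.val_injective
    have hrk : ∀ S : Finset (Option ι), rk ℂ l S = rk ℂ (lx N x) S := fun S =>
      (rk_map W.subtype hφ l S).symm
    have hd : Module.finrank ℂ W = n + 1 := by
      rw [← hr]
      unfold rk
      rw [Finset.coe_univ, Set.image_univ]
    have hl : Submodule.span ℂ (Set.range l) = ⊤ := by
      have h1 : (W.subtype '' Set.range l) = Set.range (lx N x) := by
        rw [← Set.range_comp]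
        rfl
      apply Submodule.map_injective_of_injective hφ
      rw [Submodule.map_span, h1, Submodule.map_top, Submodule.range_subtype]
    have hx' : ∀ o, x' o ≠ 0 := by
      rintro (_ | i)
      · exact one_ne_zero
      · exact hx i
    have hpow : ∀ o, W.subtype (l o) = x' o ^ N := by
      rintro (_ | i)
      · exact (one_pow N).symm
      · rfl
    have hgen' : IntermediateField.adjoin ℂ (Set.range x') = ⊤ := by
      rw [← top_le_iff, ← hgen]
      apply IntermediateField.adjoin.mono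
      rintro _ ⟨i, rfl⟩
      exact ⟨some i, rfl⟩
    refine exists_form W.subtype htr hφ hd hl hx' hgen' hN1 hpow (i0 := none) rfl ?_
    intro P hP h2
    have h3 : ¬ (N * ∑ B ∈ P, rk ℂ (pw N x) B < P.card + N * (n + 1)) := fun h =>
      hno ⟨P, hP, h2, h⟩
    rw [not_lt] at h3
    rw [hd]
    have h4 : ∑ B ∈ P, fS ℂ l N B = (N : ℤ) * ((∑ B ∈ P, rk ℂ (pw N x) B : ℕ) : ℤ) - P.card := by
      unfold fS
      rw [Finset.sum_sub_distrib, Finset.sum_const, nsmul_eq_mul, mul_one, Nat.cast_sum,
        Finset.mul_sum]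
      congr 1
      refine Finset.sum_congr rfl fun B _ => ?_
      rw [hrk, hpw]
    rw [h4]
    have h5 : ((P.card + N * (n + 1) : ℕ) : ℤ) ≤ ((N * ∑ B ∈ P, rk ℂ (pw N x) B : ℕ) : ℤ) := by
      exact_mod_cast h3
    push_cast at h5 ⊢
    linarith

/-- **Diagonal systems**: Kodaira dimension `-∞` implies uniruled. -/
theorem main' {K : Type} [Field K] [Algebra ℂ K] {ι κ : Type} [Fintype ι] [Fintype κ] {N n : ℕ}
    (hN : 2 ≤ N) (A : κ → ι → ℂ) (hA : LinearIndependent ℂ A) (b : κ → ℂ) (x : ι → K)
    (hx : ∀ i, x i ≠ 0) (hgen : IntermediateField.adjoin ℂ (Set.range x) = ⊤)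
    (hAb : ∀ q, ∑ i, algebraMap ℂ K (A q i) * x i ^ N = algebraMap ℂ K (b q))
    (htr : Algebra.trdeg ℂ K = n) (hdim : n + Fintype.card κ = Fintype.card ι)
    (hκ : KodairaNegInf K n) : Uniruled K := by
  by_contra h
  have h1 := main hN A hA b x hx hgen hAb htr hdim
  refine (h1.2 fun hP => h (h1.1 hP)).not_kodairaNegInf (by omega) hκ

end DS
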