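import Pool.Agent.Lib.MP_23b606_ag.DS.Q

/-!
# DS/P: Theorem P, the measure
-/

set_option autoImplicit false

open scoped BigOperators

namespace DS

variable {k V E : Type} [Field k] [AddCommGroup V] [Module k V] [FiniteDimensional k V]
  [Fintype E]

/-- The partition condition gives `RU(⟨l i₀⟩, ⊤)`.

Proof. Otherwise there are `l i₀ ∈ M₀ < ⊤` and a partition `P'` of `ix l M₀ ⊤ = {i : l i ∉ M₀}` with
`N dim M₀ + ∑_{P'} f ≤ N dim V`. `P'` is nonempty (not all `l i` are in `M₀`). `A = {i : l i ∈ M₀}`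
contains `i₀`, `f(A) ≤ N dim M₀ - 1`. `{A} ∪ P'` is a partition of `univ` with at least two parts and
`∑ f ≤ N dim M₀ - 1 + ∑_{P'} f ≤ N dim V - 1`, a contradiction. -/
theorem ru_of_part (l : E → V) {N : ℕ} (hl : Submodule.span k (Set.range l) = ⊤) (i0 : E)
    (hP : ∀ P : Finset (Finset E), IsPart P Finset.univ → 2 ≤ P.card →
      (N : ℤ) * (Module.finrank k V : ℤ) ≤ ∑ B ∈ P, fS k l N B) :
    RU l N (Submodule.span k {l i0}) (⊤ : Submodule k V) := by
  classical
  intro M0 h1 h2 P hPP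
  have hi0 : l i0 ∈ M0 := h1 (Submodule.mem_span_singleton_self (l i0))
  obtain ⟨A, hA⟩ : ∃ A : Finset E, A = Finset.univ.filter fun i => l i ∈ M0 := ⟨_, rfl⟩
  have hmA : ∀ i, i ∈ A ↔ l i ∈ M0 := by
    intro i
    rw [hA, Finset.mem_filter]
    exact ⟨fun h => h.2, fun h => ⟨Finset.mem_univ i, h⟩⟩
  have hAne : A.Nonempty := ⟨i0, (hmA i0).2 hi0⟩
  have hdis : Disjoint A (ix l M0 (⊤ : Submodule k V)) := by
    rw [Finset.disjoint_left]
    intro i hi hi'
    exact (mem_ix.1 hi').2 ((hmA i).1 hi)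
  obtain ⟨hU, hD⟩ := (IsPart.single hAne).union hPP hdis
  have hun : A ∪ ix l M0 (⊤ : Submodule k V) = Finset.univ := by
    rw [Finset.eq_univ_iff_forall]
    intro i
    by_cases hi : l i ∈ M0
    · exact Finset.mem_union_left _ ((hmA i).2 hi)
    · exact Finset.mem_union_right _ (mem_ix.2 ⟨Submodule.mem_top, hi⟩)
  rw [hun] at hU
  have hPne : P.Nonempty := by
    rw [Finset.nonempty_iff_ne_empty]
    rintro rfl
    have h3 : Submodule.span k (Set.range l) ≤ M0 := by
      rw [Submodule.span_le]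
      rintro _ ⟨i, rfl⟩
      by_contra hi
      obtain ⟨B, hB, -⟩ := (hPP.un i).1 (mem_ix.2 ⟨Submodule.mem_top, hi⟩)
      exact Finset.notMem_empty B hB
    rw [hl] at h3
    exact absurd h2 h3.not_gt
  have hcard : 2 ≤ ({A} ∪ P : Finset (Finset E)).card := by
    rw [Finset.card_union_of_disjoint hD, Finset.card_singleton]
    have := hPne.card_pos
    omega
  have h4 := hP _ hU hcard
  rw [Finset.sum_union hD, Finset.sum_singleton] at h4
  have h5 : fS k l N A ≤ (N : ℤ) * (Module.finrank k M0 : ℤ) - 1 := by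
    have h6 : rk k l A ≤ Module.finrank k M0 := by
      refine Submodule.finrank_mono ?_
      rw [Submodule.span_le]
      rintro _ ⟨i, hi, rfl⟩
      exact (hmA i).1 (Finset.mem_coe.1 hi)
    unfold fS
    have h7 : (N : ℤ) * (rk k l A : ℤ) ≤ (N : ℤ) * (Module.finrank k M0 : ℤ) :=
      mul_le_mul_of_nonneg_left (by exact_mod_cast h6) (Int.natCast_nonneg N)
    omega
  rw [finrank_top]
  linarith

/-- **Theorem P.** If `∑_{B ∈ P} (N rk B - 1) ≥ N dim V` for all partitions into at least two parts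
then there is a measure `D` with `D(W) ≤ N dim W - 1` for all `0 < W < V` and `D(V) = N dim V`.

Proof. `U = span {l i₀}`, `dim U = 1`. If `U = ⊤`: `a = N 1_{i₀}`, `Y = 0`. Otherwise `exists_gd` for
`U < ⊤` and `a + N 1_{i₀}`: for `0 < W < V` with `l i₀ ∉ W`: `W ⊓ U = ⊥`, (g1). With `l i₀ ∈ W`:
`U ≤ W`, (g3): `D(W) + N ≤ N (dim W - 1) - 1 + N`. `W = ⊤`: (g4). -/
theorem exists_meas (l : E → V) {N : ℕ} (hN : 1 ≤ N) (hl : Submodule.span k (Set.range l) = ⊤)
    (i0 : E) (h0 : l i0 ≠ 0)
    (hP : ∀ P : Finset (Finset E), IsPart P Finset.univ → 2 ≤ P.card →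
      (N : ℤ) * (Module.finrank k V : ℤ) ≤ ∑ B ∈ P, fS k l N B) :
    ∃ (a : E → ℕ) (Y : Multiset V), (∀ y ∈ Y, y ≠ 0) ∧
      (∀ W : Submodule k V, W ≠ ⊥ → W ≠ ⊤ →
        dm l a Y W ≤ (N : ℤ) * (Module.finrank k W : ℤ) - 1) ∧
      dm l a Y (⊤ : Submodule k V) = (N : ℤ) * (Module.finrank k V : ℤ) := by
  classical
  obtain ⟨U, hU⟩ : ∃ U : Submodule k V, U = Submodule.span k {l i0} := ⟨_, rfl⟩
  have hU1 : Module.finrank k U = 1 := by
    rw [hU]
    exact finrank_span_singleton h0
  have hiU : l i0 ∈ U := by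
    rw [hU]
    exact Submodule.mem_span_singleton_self (l i0)
  have hUb : U ≠ ⊥ := by
    rintro rfl
    exact h0 ((Submodule.mem_bot k).1 hiU)
  have hsh : ∀ (a : E → ℕ) (Y : Multiset V) (W : Submodule k V),
      dm l (fun i => a i + if i = i0 then N else 0) Y W =
        dm l a Y W + if l i0 ∈ W then (N : ℤ) else 0 := by
    intro a Y W
    unfold dm
    have h1 : ∑ i ∈ Finset.univ.filter (fun i => l i ∈ W), ((a i + if i = i0 then N else 0 : ℕ) : ℤ) =
        ∑ i ∈ Finset.univ.filter (fun i => l i ∈ W), (a i : ℤ) + if l i0 ∈ W then (N : ℤ) else 0 := by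
      push_cast
      rw [Finset.sum_add_distrib, Finset.sum_ite_eq']
      simp only [Finset.mem_filter, Finset.mem_univ, true_and]
    rw [h1]
    ring
  by_cases hT : U = ⊤
  · have hfr : Module.finrank k V = 1 := by
      rw [← finrank_top k V, ← hT, hU1]
    refine ⟨fun i => 0 + if i = i0 then N else 0, 0, fun y hy => absurd hy (Multiset.notMem_zero y),
      ?_, ?_⟩
    · intro W hW1 hW2
      exfalso
      have h1 := Submodule.finrank_lt (lt_top_iff_ne_top.2 hW2).ne
      have h2 : Module.finrank k W ≠ 0 := fun h => hW1 (Submodule.finrank_eq_zero.1 h)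
      omega
    · rw [hsh (fun _ => 0) 0 ⊤, if_pos Submodule.mem_top, hfr]
      unfold dm
      simp
  · have hUT : U < ⊤ := lt_top_iff_ne_top.2 hT
    have hR : RU l N U (⊤ : Submodule k V) := by
      rw [hU]
      exact ru_of_part l hl i0 hP
    obtain ⟨a, Y, g⟩ := exists_gd l hN U ⊤ hUb hUT hR
    refine ⟨fun i => a i + if i = i0 then N else 0, Y, fun y hy => (g.ymem y hy).2, ?_, ?_⟩
    · intro W hW1 hW2
      rw [hsh]
      by_cases hi : l i0 ∈ W
      · rw [if_pos hi]
        have hUW : U ≤ W := by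
          rw [hU, Submodule.span_singleton_le_iff_mem]
          exact hi
        have h1 := g.g3 W hUW (lt_top_iff_ne_top.2 hW2)
        rw [hU1] at h1
        have h2 : (N : ℤ) * ((Module.finrank k W : ℤ) - ((1 : ℕ) : ℤ)) =
            (N : ℤ) * (Module.finrank k W : ℤ) - N := by
          push_cast
          ring
        rw [h2] at h1
        linarith
      · rw [if_neg hi, add_zero]
        refine g.g1 W le_top hW1 ?_
        rw [Submodule.eq_bot_iff]
        intro x hx
        obtain ⟨hxW, hxU⟩ := Submodule.mem_inf.1 hx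
        rw [hU, Submodule.mem_span_singleton] at hxU
        obtain ⟨c, rfl⟩ := hxU
        by_cases hc : c = 0
        · rw [hc, zero_smul]
        · exfalso
          apply hi
          have h2 := W.smul_mem c⁻¹ hxW
          rwa [smul_smul, inv_mul_cancel₀ hc, one_smul] at h2
    · rw [hsh, if_pos Submodule.mem_top, g.g4, hU1, finrank_top]
      push_cast
      ring

end DS
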