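import Pool.Agent.Lib.MP_23b606_ag.DS.Comp
import Pool.Agent.Lib.MP_23b606_ag.DS.IrrB

/-!
# DS/Q: Lemma Q
-/

set_option autoImplicit false

open scoped BigOperators

namespace DS

variable {k V E : Type} [Field k] [AddCommGroup V] [Module k V] [FiniteDimensional k V]
  [Fintype E]

omit [FiniteDimensional k V] in
/-- `RU(U, M)` and `U ≤ H` give `RU(H, M)`. -/
theorem RU.mono {l : E → V} {N : ℕ} {U H M : Submodule k V} (h : RU l N U M) (h1 : U ≤ H) :
    RU l N H M := fun M0 h2 h3 P hP => h M0 (h1.trans h2) h3 P hP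

/-- **Lemma Q.** Induction on `dim M - dim U`: `Gd.comp` (with `RU.mono`) if some `U < H < M` has
`RU(U, H)`, otherwise `exists_of_irr`. -/
theorem exists_gd (l : E → V) {N : ℕ} (hN : 1 ≤ N) (U M : Submodule k V) (hU : U ≠ ⊥)
    (hUM : U < M) (hR : RU l N U M) : ∃ (a : E → ℕ) (Y : Multiset V), Gd l N U M a Y := by
  suffices h : ∀ (n : ℕ) (U M : Submodule k V), U ≠ ⊥ → U < M → RU l N U M →
      Module.finrank k M ≤ Module.finrank k U + n → ∃ (a : E → ℕ) (Y : Multiset V), Gd l N U M a Y from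
    h (Module.finrank k M) U M hU hUM hR (Nat.le_add_left _ _)
  intro n
  induction n with
  | zero =>
    intro U M _ h2 _ h4
    have h5 := Submodule.finrank_lt_finrank_of_lt h2
    omega
  | succ n ih =>
    intro U M h1 h2 h3 h4
    by_cases hH : ∃ H : Submodule k V, U < H ∧ H < M ∧ RU l N U H
    · obtain ⟨H, h5, h6, h7⟩ := hH
      have h8 := Submodule.finrank_lt_finrank_of_lt h5
      have h9 := Submodule.finrank_lt_finrank_of_lt h6
      have h10 : H ≠ ⊥ := fun h => absurd (h ▸ h5) not_lt_bot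
      obtain ⟨a, Y, ha⟩ := ih U H h1 h5 h7 (by omega)
      obtain ⟨b, Z, hb⟩ := ih H M h10 h6 (h3.mono h5.le) (by omega)
      exact ⟨a + b, Y + Z, Gd.comp h1 h5 h6 ha hb⟩
    · exact exists_of_irr l hN h1 h2 h3 fun H h5 h6 h7 => hH ⟨H, h5, h6, h7⟩

end DS
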