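import Pool.Agent.Lib.MP_23b606_ag.T1.Jac

/-!
# DS/Wr: Jacobian determinants of quotients
-/

set_option autoImplicit false

open scoped BigOperators

namespace DS

open T1

variable {K : Type} [Field K] [Algebra ℂ K] {n : ℕ}

/-- The matrix with rows `(z_j)_j`, `(D_1 z_j)_j, …, (D_n z_j)_j`. -/
noncomputable def wm (D : Fin n → Derivation ℂ K K) (z : Fin (n + 1) → K) :
    Matrix (Fin (n + 1)) (Fin (n + 1)) K :=
  Matrix.of fun i j => Fin.cases (z j) (fun i' => D i' (z j)) i

/-- `det (z_j; D_i z_j) = z_0^(n+1) det (D_i (z_(j+1)/z_0))`.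

Proof: `D_i (z_j / z_0) = (D_i z_j - (z_j / z_0) D_i z_0) / z_0`. Subtracting `z_j / z_0` times the
column `0` from the column `j ≥ 1` makes the first row `(z_0, 0, …, 0)`. -/
theorem det_wm (D : Fin n → Derivation ℂ K K) (z : Fin (n + 1) → K) (h0 : z 0 ≠ 0) :
    (wm D z).det = z 0 ^ (n + 1) * jac D fun j => z j.succ / z 0 := by
  let c : Fin (n + 1) → K := fun j => Fin.cases 0 (fun j' => z j'.succ / z 0) j
  let M' : Matrix (Fin (n + 1)) (Fin (n + 1)) K := Matrix.of fun i j => wm D z i j - c j * wm D z i 0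
  have h1 : M'.det = (wm D z).det := by
    rw [← Matrix.det_transpose M', ← Matrix.det_transpose (wm D z)]
    refine Matrix.det_eq_of_forall_row_eq_smul_add_const (fun j => -c j) 0 ?_ fun i j => ?_
    · show -(0 : K) = 0
      exact neg_zero
    · show wm D z j i - c i * wm D z j 0 = wm D z j i + -c i * wm D z j 0
      ring
  have h2 : ∀ j : Fin n, M' 0 j.succ = 0 := by
    intro j
    show z j.succ - z j.succ / z 0 * z 0 = 0
    rw [div_mul_cancel₀ _ h0, sub_self]
  have h3 : M' 0 0 = z 0 := by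
    show z 0 - 0 * z 0 = z 0
    rw [zero_mul, sub_zero]
  have h4 : M'.submatrix Fin.succ (Fin.succAbove 0) =
      z 0 • (Matrix.of fun i j => D i (z (Fin.succ j) / z 0)) := by
    ext i j
    show D i (z (Fin.succAbove 0 j)) - c (Fin.succAbove 0 j) * D i (z 0) =
      z 0 * D i (z (Fin.succ j) / z 0)
    rw [Fin.succAbove_zero]
    show D i (z (Fin.succ j)) - z (Fin.succ j) / z 0 * D i (z 0) =
      z 0 * D i (z (Fin.succ j) / z 0)
    have h5 : D i (z (Fin.succ j)) = D i (z (Fin.succ j) / z 0 * z 0) := by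
      rw [div_mul_cancel₀ _ h0]
    rw [h5, Derivation.leibniz, smul_eq_mul, smul_eq_mul]
    ring
  rw [← h1, Matrix.det_succ_row_zero, Fin.sum_univ_succ, h3, h4, Matrix.det_smul,
    Fintype.card_fin]
  rw [Finset.sum_eq_zero fun j _ => by rw [h2 j, mul_zero, zero_mul]]
  unfold jac
  simp only [Fin.val_zero, pow_zero]
  ring

/-- For two bases of a space of functions the forms `z_0^(n+1) d(z_1/z_0) ∧ … ∧ d(z_n/z_0)` are
proportional: `wm D (φ ∘ b') = wm D (φ ∘ b) * A` with the complex base change matrix `A`. -/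
theorem jac_bases {V : Type} [AddCommGroup V] [Module ℂ V] (φ : V →ₗ[ℂ] K)
    (hφ : Function.Injective φ) (b b' : Module.Basis (Fin (n + 1)) ℂ V) :
    ∃ c : ℂ, c ≠ 0 ∧ ∀ D : Fin n → Derivation ℂ K K,
      φ (b' 0) ^ (n + 1) * jac D (fun j => φ (b' j.succ) / φ (b' 0)) =
        algebraMap ℂ K c * (φ (b 0) ^ (n + 1) * jac D fun j => φ (b j.succ) / φ (b 0)) := by
  have hne : ∀ b : Module.Basis (Fin (n + 1)) ℂ V, φ (b 0) ≠ 0 := fun b h =>
    b.ne_zero 0 (hφ (h.trans (map_zero φ).symm))
  have hs : ∀ j, φ (b' j) = ∑ i, algebraMap ℂ K (b.toMatrix b' i j) * φ (b i) := by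
    intro j
    have h1 := congrArg φ (b.sum_toMatrix_smul_self (v := b') (j := j))
    rw [map_sum] at h1
    rw [← h1]
    refine Finset.sum_congr rfl fun i _ => ?_
    rw [map_smul, Algebra.smul_def]
  refine ⟨(b.toMatrix b').det, ?_, fun D => ?_⟩
  · exact (b.isUnit_det b').ne_zero
  · have h2 : wm D (fun j => φ (b' j)) =
        wm D (fun j => φ (b j)) * (b.toMatrix b').map (algebraMap ℂ K) := by
      ext i j
      rw [Matrix.mul_apply]
      refine Fin.cases ?_ (fun i' => ?_) i
      · show φ (b' j) = ∑ k, φ (b k) * algebraMap ℂ K (b.toMatrix b' k j)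
        rw [hs j]
        exact Finset.sum_congr rfl fun k _ => mul_comm _ _
      · show D i' (φ (b' j)) = ∑ k, D i' (φ (b k)) * algebraMap ℂ K (b.toMatrix b' k j)
        rw [hs j, map_sum]
        refine Finset.sum_congr rfl fun k _ => ?_
        rw [Derivation.leibniz, Derivation.map_algebraMap, smul_zero, add_zero, smul_eq_mul,
          mul_comm]
    have h3 := congrArg Matrix.det h2
    rw [Matrix.det_mul, det_wm D _ (hne b'), det_wm D _ (hne b)] at h3
    have h4 : ((b.toMatrix b').map (algebraMap ℂ K)).det = algebraMap ℂ K (b.toMatrix b').det :=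
      ((algebraMap ℂ K).map_det _).symm
    rw [h3, h4, mul_comm]

end DS
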