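import Pool.Agent.Lib.MP_23b606_ag.DS.Ineq
import Pool.Agent.Lib.MP_23b606_ag.DS.Wr
import Pool.Agent.Lib.MP_23b606_ag.DS.Log
import Pool.Agent.Lib.MP_23b606_ag.DS.Gg
import Pool.Agent.Lib.MP_23b606_ag.T3.Defs

/-!
# DS/RegA: regularity at one valuation ring
-/

set_option autoImplicit false

open scoped BigOperators

namespace DS

open T1

variable {K : Type} [Field K] [Algebra ℂ K] {V : Type} [AddCommGroup V] [Module ℂ V]
  [FiniteDimensional ℂ V] (φ : V →ₗ[ℂ] K) {E : Type} [Fintype E]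

omit [Algebra ℂ K] in
private theorem regA_pow {O : ValuationSubring K} (ν : NVal O) {x : K} (hx : x ≠ 0) (m : ℕ) :
    ν.v (x ^ m) = m * ν.v x := by
  have h := ν.zpow hx (m : ℤ)
  rwa [zpow_natCast] at h

omit [FiniteDimensional ℂ V] in
private theorem regA_top (l : E → V) (a : E → ℕ) (Y : Multiset V) :
    dm l a Y (⊤ : Submodule ℂ V) = ∑ i, (a i : ℤ) - (Multiset.card Y : ℤ) := by
  classical
  unfold dm
  rw [Finset.filter_true_of_mem fun i _ => Submodule.mem_top,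
    Multiset.countP_eq_card.2 fun y _ => Submodule.mem_top]

omit [AddCommGroup V] [Module ℂ V] [FiniteDimensional ℂ V] in
private theorem regA_shift (Y : Multiset V) (u : V → ℤ) (T : ℤ) :
    (Y.map fun y => u y - T).sum = (Y.map u).sum - T * (Multiset.card Y : ℤ) := by
  induction Y using Multiset.induction_on with
  | empty => simp
  | cons y Y ih =>
    rw [Multiset.map_cons, Multiset.sum_cons, Multiset.map_cons, Multiset.sum_cons, ih,
      Multiset.card_cons]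
    push_cast
    ring

private theorem regA_gg {n : ℕ} (htr : Algebra.trdeg ℂ K = n) (hφ : Function.Injective φ)
    {l : E → V} (hl : Submodule.span ℂ (Set.range l) = ⊤) {x : E → K} (hx0 : ∀ i, x i ≠ 0)
    {N : ℕ} (hN : 1 ≤ N) (hx : ∀ i, φ (l i) = x i ^ N) (a : E → ℕ) (Y : Multiset V)
    (hY : ∀ y ∈ Y, y ≠ 0)
    (h1 : ∀ W : Submodule ℂ V, W ≠ ⊥ → W ≠ ⊤ →
      dm l a Y W ≤ (N : ℤ) * (Module.finrank ℂ W : ℤ) - 1)
    (h2 : dm l a Y (⊤ : Submodule ℂ V) = (N : ℤ) * (Module.finrank ℂ V : ℤ))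
    (b : Module.Basis (Fin (n + 1)) ℂ V) (hb : φ (b 0) = 1)
    (hj : ∃ D : Fin n → Derivation ℂ K K, jac D (fun j => φ (b j.succ)) ≠ 0)
    (O : ValuationSubring K) (hO : IsDiv n O) {g : K} (hg : g ≠ 0)
    (hgv : ∀ ν : NVal O, ν.v g =
      -∑ i, (a i : ℤ) * ν.v (φ (l i)) + (Y.map fun y => ν.v (φ y)).sum) :
    RegularAt O (fun j : Fin n => φ (b j.succ)) N g := by
  classical
  obtain ⟨ν⟩ := exists_nval O hO.1
  have hC : ∀ c : ℂ, algebraMap ℂ K c ∈ O := T3.IsDiv.const hO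
  have hfin : Module.finrank ℂ V = n + 1 := by
    rw [Module.finrank_eq_card_basis b, Fintype.card_fin]
  obtain ⟨z, hz, hz'⟩ := exists_fil ν hC φ hφ hfin
  have hφ0 : ∀ y : V, y ≠ 0 → φ y ≠ 0 := fun y hy h =>
    hy (hφ (by rw [h, map_zero]))
  have hz0 : ∀ j, φ (z j) ≠ 0 := fun j => hφ0 _ (z.ne_zero j)
  obtain ⟨w, hw⟩ : ∃ w : Fin n → K, w = fun j => φ (z j.succ) / φ (z 0) := ⟨_, rfl⟩
  have hw0 : ∀ j, w j ≠ 0 := fun j => by
    rw [hw]
    exact div_ne_zero (hz0 _) (hz0 _)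
  have hwv : ∀ j, ν.v (w j) = ν.v (φ (z j.succ)) - ν.v (φ (z 0)) := fun j => by
    rw [hw]
    change ν.v (φ (z j.succ) / φ (z 0)) = _
    rw [div_eq_mul_inv, ν.mul _ _ (hz0 _) (inv_ne_zero (hz0 _)), ν.inv (hz0 _)]
    ring
  obtain ⟨c, hc, hjb⟩ := jac_bases φ hφ b z
  have hc0 : algebraMap ℂ K c ≠ 0 := (map_ne_zero _).2 hc
  obtain ⟨r, hr⟩ : ∃ r : K, r = algebraMap ℂ K c * (φ (z 0) ^ (n + 1))⁻¹ := ⟨_, rfl⟩
  have hzp : φ (z 0) ^ (n + 1) ≠ 0 := pow_ne_zero _ (hz0 0)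
  have hr0 : r ≠ 0 := by
    rw [hr]
    exact mul_ne_zero hc0 (inv_ne_zero hzp)
  have hjr : ∀ D : Fin n → Derivation ℂ K K,
      jac D w = r * jac D (fun j => φ (b j.succ)) := by
    intro D
    have h := hjb D
    rw [hb, one_pow, one_mul, ← hw] at h
    have h3 : (fun j : Fin n => φ (b j.succ) / 1) = fun j : Fin n => φ (b j.succ) := by
      funext j
      rw [div_one]
    rw [h3] at h
    rw [hr, mul_comm (algebraMap ℂ K c), mul_assoc, ← h, inv_mul_cancel_left₀ hzp]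
  have hjw : ∃ D : Fin n → Derivation ℂ K K, jac D w ≠ 0 := by
    obtain ⟨D, hD⟩ := hj
    exact ⟨D, by rw [hjr]; exact mul_ne_zero hr0 hD⟩
  obtain ⟨a', j', ha', hj', hja, hjv, hjv0⟩ := log_form htr w hw0 hjw ν hC
  have hrv : ν.v r = -(((n + 1 : ℕ) : ℤ) * ν.v (φ (z 0))) := by
    rw [hr, ν.mul _ _ hc0 (inv_ne_zero hzp), v_const ν hC hc, ν.inv hzp, regA_pow ν (hz0 0),
      zero_add]
  have hj0 : j' * r ≠ 0 := mul_ne_zero hj' hr0
  have hjN : (j' * r) ^ N ≠ 0 := pow_ne_zero _ hj0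
  have hc'0 : g / (j' * r) ^ N ≠ 0 := div_ne_zero hg hjN
  refine ⟨a', g / (j' * r) ^ N, j' * r, ha', (ν.mem _ hc'0).2 ?_, fun D => ?_,
    (div_mul_cancel₀ g hjN).symm⟩
  swap
  · rw [hja, hjr, mul_assoc]
  have hcv : ν.v (g / (j' * r) ^ N) = ν.v g - N * (ν.v j' + ν.v r) := by
    rw [div_eq_mul_inv, ν.mul _ _ hg (inv_ne_zero hjN), ν.inv hjN, regA_pow ν hj0,
      ν.mul _ _ hj' hr0]
    ring
  rw [regA_top, hfin] at h2
  have hA : ∑ i, (a i : ℤ) * (ν.v (φ (l i)) - ν.v (φ (z 0))) =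
      ∑ i, (a i : ℤ) * ν.v (φ (l i)) - ν.v (φ (z 0)) * ∑ i, (a i : ℤ) := by
    rw [Finset.mul_sum, ← Finset.sum_sub_distrib]
    exact Finset.sum_congr rfl fun i _ => by ring
  have hB := regA_shift Y (fun y => ν.v (φ y)) (ν.v (φ (z 0)))
  have key : ν.v (g / (j' * r) ^ N) =
      -∑ i, (a i : ℤ) * (ν.v (φ (l i)) - ν.v (φ (z 0))) +
        (Y.map fun y => ν.v (φ y) - ν.v (φ (z 0))).sum - N * ν.v j' := by
    rw [hcv, hgv ν, hrv, hA, hB]
    have h3 : ν.v (φ (z 0)) * (∑ i, (a i : ℤ) - (Multiset.card Y : ℤ)) =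
        ν.v (φ (z 0)) * ((N : ℤ) * ((n + 1 : ℕ) : ℤ)) := by rw [h2]
    linear_combination -h3
  rw [key]
  have hN0 : (0 : ℤ) ≤ N := Nat.cast_nonneg N
  by_cases hne : ∃ j, ν.v (φ (z 0)) < ν.v (φ (z j))
  · have h3 := ineq ν hC φ hφ hl hx0 hN hx a Y hY h1 z hz hz' hne
    rw [Fin.sum_univ_succ, sub_self, zero_add, ← Finset.sum_congr rfl fun j _ => hwv j] at h3
    have h4 := mul_le_mul_of_nonneg_left hjv hN0
    linarith
  · push Not at hne
    have h3 : ∀ j, ν.v (φ (z j)) = ν.v (φ (z 0)) := fun j => le_antisymm (hne j) (hz (Fin.zero_le j))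
    have h4 : ν.v j' ≤ 0 := hjv0 fun j => by rw [hwv, h3, sub_self]
    obtain ⟨h5, -⟩ := exists_min ν φ hφ hl hx0 hx z hz
    have h6 : Ft ν hC φ (ν.v (φ (z 0)) + 1) = ⊥ := by
      rw [← Submodule.finrank_eq_zero (R := ℂ), hz', Finset.card_eq_zero,
        Finset.filter_eq_empty_iff]
      intro j _
      have h8 := h3 j
      omega
    have h7 : ∀ y : V, y ≠ 0 → ν.v (φ y) = ν.v (φ (z 0)) := by
      intro y hy
      refine le_antisymm ?_ (h5 y hy)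
      by_contra hlt
      have h8 : y ∈ Ft ν hC φ (ν.v (φ (z 0)) + 1) := Or.inr (by omega)
      rw [h6] at h8
      exact hy ((Submodule.mem_bot ℂ).1 h8)
    have hl0 : ∀ i, l i ≠ 0 := fun i h => by
      have h8 := hx i
      rw [h, map_zero] at h8
      exact pow_ne_zero N (hx0 i) h8.symm
    have h8 : ∑ i, (a i : ℤ) * (ν.v (φ (l i)) - ν.v (φ (z 0))) = 0 :=
      Finset.sum_eq_zero fun i _ => by rw [h7 _ (hl0 i), sub_self, mul_zero]
    have h9 : (Y.map fun y => ν.v (φ y) - ν.v (φ (z 0))).sum = 0 := by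
      refine Multiset.sum_eq_zero fun t ht => ?_
      obtain ⟨y, hy, rfl⟩ := Multiset.mem_map.1 ht
      rw [h7 y (hY y hy), sub_self]
    rw [h8, h9]
    have h10 := mul_nonneg hN0 (neg_nonneg.2 h4)
    linarith

/-- **Regularity at one valuation ring.** `b` a basis of `V` with `φ (b 0) = 1`,
`y j = φ (b (j + 1))`: the form `gg (dy_1 ∧ … ∧ dy_n)^N` is regular at `O`.

Proof. `exists_fil` gives `z`, `w j = φ (z (j + 1)) / φ (z 0)`, all `≠ 0` and of value `≥ 0`.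
`jac_bases`: `φ (z 0)^(n+1) jac D w = c jac D y` for all `D`, `c ∈ ℂ` nonzero; so some `jac D w ≠ 0`.
`log_form` for `w`: `a' i ∈ O`, `j'` with `jac D a' = j' jac D w = j jac D y`,
`j = j' c φ (z 0)^(-(n+1))`, `v j = v j' - (n + 1) T₀`, `T₀ = v (φ (z 0))`. Take
`c' = gg / j^N`: `v c' = v gg - N v j' + N (n + 1) T₀`. By `h2` (`∑ a_i - |Y| = N (n + 1)`) this is
`- ∑ a_i v'(l i) + ∑_Y v'(y) - N v j'`, `v' = v - T₀`. If some `v (φ (z j)) > T₀`:
`v j' ≤ 1 - ∑ (v (φ (z j)) - T₀)` and `ineq` gives `v c' ≥ 0`. Otherwise `v j' ≤ 0` and all `v'` on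
`V ∖ 0` are `0` (all values of the basis `z` are `T₀`, `exists_fil`: `Ft (T₀ + 1)` has dimension
`0`), so `v c' ≥ 0`. -/
theorem regularAt_gg {n : ℕ} (htr : Algebra.trdeg ℂ K = n) (hφ : Function.Injective φ)
    {l : E → V} (hl : Submodule.span ℂ (Set.range l) = ⊤) {x : E → K} (hx0 : ∀ i, x i ≠ 0)
    {N : ℕ} (hN : 1 ≤ N) (hx : ∀ i, φ (l i) = x i ^ N) (a : E → ℕ) (Y : Multiset V)
    (hY : ∀ y ∈ Y, y ≠ 0)
    (h1 : ∀ W : Submodule ℂ V, W ≠ ⊥ → W ≠ ⊤ →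
      dm l a Y W ≤ (N : ℤ) * (Module.finrank ℂ W : ℤ) - 1)
    (h2 : dm l a Y (⊤ : Submodule ℂ V) = (N : ℤ) * (Module.finrank ℂ V : ℤ))
    (b : Module.Basis (Fin (n + 1)) ℂ V) (hb : φ (b 0) = 1)
    (hj : ∃ D : Fin n → Derivation ℂ K K, jac D (fun j => φ (b j.succ)) ≠ 0)
    (O : ValuationSubring K) (hO : IsDiv n O) :
    RegularAt O (fun j : Fin n => φ (b j.succ)) N (gg φ l a Y) := by
  have hl0 : ∀ i, l i ≠ 0 := fun i h => by
    have h3 := hx i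
    rw [h, map_zero] at h3
    exact pow_ne_zero N (hx0 i) h3.symm
  exact regA_gg φ htr hφ hl hx0 hN hx a Y hY h1 h2 b hb hj O hO (gg_ne_zero φ hφ hl0 a hY)
    fun ν => v_gg φ ν hφ hl0 a hY

end DS
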