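import Pool.Agent.Lib.MP_23b606_ag.DS.P
import Pool.Agent.Lib.MP_23b606_ag.DS.RegA
import Pool.Agent.Lib.MP_23b606_ag.DS.Jy

/-!
# DS/Reg: the regular form
-/

set_option autoImplicit false

open scoped BigOperators

namespace DS

open T1

variable {K : Type} [Field K] [Algebra ℂ K] {V : Type} [AddCommGroup V] [Module ℂ V]
  [FiniteDimensional ℂ V] (φ : V →ₗ[ℂ] K) {E : Type} [Fintype E]

/-- A basis starting with a given nonzero vector. -/
private theorem reg_basis {n : ℕ} (hd : Module.finrank ℂ V = n + 1) {w : V} (hw : w ≠ 0) :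
    ∃ b : Module.Basis (Fin (n + 1)) ℂ V, b 0 = w := by
  have hs : LinearIndepOn ℂ id ({w} : Set V) := LinearIndepOn.singleton hw
  let B := Module.Basis.extend hs
  have hi : w ∈ hs.extend (Set.subset_univ _) := hs.subset_extend _ rfl
  have : Fintype (hs.extend (Set.subset_univ ({w} : Set V))) := FiniteDimensional.fintypeBasisIndex B
  have hc : Fintype.card (hs.extend (Set.subset_univ ({w} : Set V))) = n + 1 := by
    rw [← Module.finrank_eq_card_basis B, hd]
  let e := Fintype.equivFinOfCardEq hc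
  refine ⟨B.reindex (e.trans (Equiv.swap (e ⟨w, hi⟩) 0)), ?_⟩
  rw [Module.Basis.reindex_apply, Equiv.symm_trans_apply, Equiv.symm_swap, Equiv.swap_apply_right,
    Equiv.symm_apply_apply]
  exact Module.Basis.extend_apply_self hs _

/-- **The regular form.** Proof: `exists_meas`; extend `l i0` to a basis `b` with `b 0 = l i0`
(`φ (b 0) = x i0 ^ N = 1`); `exists_jac_y` (`x i ^ N = φ (l i)` is a combination of the `φ (b j)`);
`gg_ne_zero`, `regularAt_gg`. -/
theorem exists_form {n : ℕ} (htr : Algebra.trdeg ℂ K = n) (hφ : Function.Injective φ)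
    (hd : Module.finrank ℂ V = n + 1) {l : E → V}
    (hl : Submodule.span ℂ (Set.range l) = ⊤) {x : E → K} (hx0 : ∀ i, x i ≠ 0)
    (hgen : IntermediateField.adjoin ℂ (Set.range x) = ⊤)
    {N : ℕ} (hN : 1 ≤ N) (hx : ∀ i, φ (l i) = x i ^ N) {i0 : E} (hi0 : x i0 = 1)
    (hP : ∀ P : Finset (Finset E), IsPart P Finset.univ → 2 ≤ P.card →
      (N : ℤ) * (Module.finrank ℂ V : ℤ) ≤ ∑ B ∈ P, fS ℂ l N B) :
    ∃ (y : Fin n → K) (g : K), (∃ D : Fin n → Derivation ℂ K K, jac D y ≠ 0) ∧ g ≠ 0 ∧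
      ∀ O : ValuationSubring K, IsDiv n O → RegularAt O y N g := by
  have hl0 : ∀ i, l i ≠ 0 := fun i h => pow_ne_zero N (hx0 i) (by rw [← hx i, h, map_zero])
  obtain ⟨a, Y, hY, h1, h2⟩ := exists_meas l hN hl i0 (hl0 i0) hP
  obtain ⟨b, hb0⟩ := reg_basis hd (hl0 i0)
  have hb : φ (b 0) = 1 := by rw [hb0, hx, hi0, one_pow]
  have hy : ∀ i, x i ^ N ∈ Submodule.span ℂ
      (insert (1 : K) (Set.range fun j : Fin n => φ (b j.succ))) := by
    intro i
    have h3 : l i ∈ Submodule.span ℂ (Set.range b) := by rw [b.span_eq]; trivial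
    have h4 := Submodule.mem_map_of_mem (f := φ) h3
    rw [Submodule.map_span, hx i] at h4
    refine Submodule.span_mono ?_ h4
    rintro _ ⟨_, ⟨j, rfl⟩, rfl⟩
    refine Fin.cases ?_ (fun j => ?_) j
    · exact Or.inl hb
    · exact Or.inr ⟨j, rfl⟩
  have hj := exists_jac_y htr x hN hgen (fun j : Fin n => φ (b j.succ)) hy
  exact ⟨fun j => φ (b j.succ), gg φ l a Y, hj, gg_ne_zero φ hφ hl0 a hY, fun O hO =>
    regularAt_gg φ htr hφ hl hx0 hN hx a Y hY h1 h2 b hb hj O hO⟩

end DS
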