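import Pool.Agent.Lib.MP_23b606_ag.DS.Defs

/-!
# DS/Rk: ranks of finite sets of vectors
-/

set_option autoImplicit false

open scoped BigOperators

namespace DS

variable {k V E : Type} [Field k] [AddCommGroup V] [Module k V] [FiniteDimensional k V]

/-- Submodularity of the rank. Proof: `span (S ∪ T) = span S ⊔ span T`,
`span (S ∩ T) ≤ span S ⊓ span T`, `Submodule.finrank_sup_add_finrank_inf_eq`. -/
theorem rk_submod [DecidableEq E] (l : E → V) (S T : Finset E) :
    rk k l (S ∪ T) + rk k l (S ∩ T) ≤ rk k l S + rk k l T := by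
  have h1 : Submodule.span k (l '' ((S ∪ T : Finset E) : Set E)) =
      Submodule.span k (l '' (S : Set E)) ⊔ Submodule.span k (l '' (T : Set E)) := by
    rw [Finset.coe_union, Set.image_union, Submodule.span_union]
  have h2 : Submodule.span k (l '' ((S ∩ T : Finset E) : Set E)) ≤
      Submodule.span k (l '' (S : Set E)) ⊓ Submodule.span k (l '' (T : Set E)) := by
    refine le_inf (Submodule.span_mono (Set.image_mono ?_))
      (Submodule.span_mono (Set.image_mono ?_))
    · exact Finset.coe_subset.2 Finset.inter_subset_left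
    · exact Finset.coe_subset.2 Finset.inter_subset_right
  have h3 := Submodule.finrank_sup_add_finrank_inf_eq (Submodule.span k (l '' (S : Set E)))
    (Submodule.span k (l '' (T : Set E)))
  have h4 := Submodule.finrank_mono h2
  unfold rk
  rw [h1]
  omega

theorem rk_le (l : E → V) {S : Finset E} {W : Submodule k V} (h : ∀ i ∈ S, l i ∈ W) :
    rk k l S ≤ Module.finrank k W := by
  refine Submodule.finrank_mono (Submodule.span_le.2 ?_)
  rintro _ ⟨i, hi, rfl⟩
  exact h i hi

theorem rk_mono (l : E → V) {S T : Finset E} (h : S ⊆ T) : rk k l S ≤ rk k l T :=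
  rk_le l fun _ hi => Submodule.subset_span (Set.mem_image_of_mem l (h hi))

theorem rk_pos (l : E → V) {S : Finset E} {i : E} (hi : i ∈ S) (h0 : l i ≠ 0) :
    1 ≤ rk k l S := by
  by_contra hcon
  have h1 : rk k l S = 0 := by omega
  have h2 : Submodule.span k (l '' (S : Set E)) = ⊥ := Submodule.finrank_eq_zero.1 h1
  have h3 : l i ∈ Submodule.span k (l '' (S : Set E)) :=
    Submodule.subset_span (Set.mem_image_of_mem l hi)
  rw [h2, Submodule.mem_bot] at h3
  exact h0 h3

/-- The function `f(S) = N rk S - 1` is submodular. -/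
theorem fS_submod [DecidableEq E] (l : E → V) (N : ℕ) (S T : Finset E) :
    fS k l N (S ∪ T) + fS k l N (S ∩ T) ≤ fS k l N S + fS k l N T := by
  have h1 : ((rk k l (S ∪ T) : ℤ) + (rk k l (S ∩ T) : ℤ)) ≤
      ((rk k l S : ℤ) + (rk k l T : ℤ)) := by
    exact_mod_cast rk_submod (k := k) l S T
  have h2 := mul_le_mul_of_nonneg_left h1 (Int.natCast_nonneg N)
  unfold fS
  linarith

theorem fS_nonneg (l : E → V) {N : ℕ} (hN : 1 ≤ N) {S : Finset E} {i : E} (hi : i ∈ S)
    (h0 : l i ≠ 0) : 0 ≤ fS k l N S := by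
  have h1 : (1 : ℤ) ≤ (rk k l S : ℤ) := by exact_mod_cast rk_pos (k := k) l hi h0
  have h2 : (1 : ℤ) ≤ (N : ℤ) := by exact_mod_cast hN
  have h3 : (1 : ℤ) ≤ (N : ℤ) * (rk k l S : ℤ) := by
    calc (1 : ℤ) = 1 * 1 := (one_mul 1).symm
      _ ≤ (N : ℤ) * (rk k l S : ℤ) := mul_le_mul h2 h1 zero_le_one (by omega)
  unfold fS
  linarith

variable [Fintype E]

omit [FiniteDimensional k V] in
/-- The measure is additive. -/
theorem dm_add (l : E → V) (a b : E → ℕ) (Y Z : Multiset V) (B : Submodule k V) :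
    dm l (a + b) (Y + Z) B = dm l a Y B + dm l b Z B := by
  classical
  unfold dm
  simp only [Pi.add_apply, Nat.cast_add, Finset.sum_add_distrib, Multiset.countP_add]
  ring

omit [FiniteDimensional k V] in
/-- The measure of `B` is the measure of `B ⊓ M` if it is supported in `M`. -/
theorem dm_inf (l : E → V) {a : E → ℕ} {Y : Multiset V} {M : Submodule k V}
    (ha : ∀ i, a i ≠ 0 → l i ∈ M) (hY : ∀ y ∈ Y, y ∈ M) (B : Submodule k V) :
    dm l a Y B = dm l a Y (B ⊓ M) := by
  classical
  unfold dm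
  congr 1
  · rw [Finset.sum_filter, Finset.sum_filter]
    refine Finset.sum_congr rfl fun i _ => ?_
    by_cases h0 : a i = 0
    · simp [h0]
    · simp [Submodule.mem_inf, ha i h0]
  · congr 1
    refine Multiset.countP_congr rfl fun y hy => ?_
    simp [Submodule.mem_inf, hY y hy]

omit [FiniteDimensional k V] in
theorem dm_bot (l : E → V) {a : E → ℕ} {Y : Multiset V} (ha : ∀ i, a i ≠ 0 → l i ≠ 0)
    (hY : ∀ y ∈ Y, y ≠ 0) : dm l a Y (⊥ : Submodule k V) = 0 := by
  classical
  unfold dm
  have h1 : ∑ i ∈ Finset.univ.filter (fun i => l i ∈ (⊥ : Submodule k V)), (a i : ℤ) = 0 := by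
    refine Finset.sum_eq_zero fun i hi => ?_
    rw [Finset.mem_filter, Submodule.mem_bot] at hi
    by_contra hcon
    exact ha i (fun h => hcon (by rw [h]; rfl)) hi.2
  have h2 : Y.countP (fun y => y ∈ (⊥ : Submodule k V)) = 0 := by
    rw [Multiset.countP_eq_zero]
    intro y hy h
    exact hY y hy ((Submodule.mem_bot k).1 h)
  simp only [h1, h2]
  rfl

omit [FiniteDimensional k V] in
/-- `ix l U M` is the disjoint union of `ix l U H` and `ix l H M` for `U ≤ H ≤ M`. -/
theorem ix_union [DecidableEq E] (l : E → V) {U H M : Submodule k V} (h1 : U ≤ H) (h2 : H ≤ M) :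
    ix l U H ∪ ix l H M = ix l U M ∧ Disjoint (ix l U H) (ix l H M) := by
  constructor
  · ext i
    rw [Finset.mem_union, mem_ix, mem_ix, mem_ix]
    constructor
    · rintro (⟨h3, h4⟩ | ⟨h3, h4⟩)
      · exact ⟨h2 h3, h4⟩
      · exact ⟨h3, fun h => h4 (h1 h)⟩
    · rintro ⟨h3, h4⟩
      by_cases h5 : l i ∈ H
      · exact Or.inl ⟨h5, h4⟩
      · exact Or.inr ⟨h3, h5⟩
  · rw [Finset.disjoint_left]
    intro i h3 h4
    rw [mem_ix] at h3 h4
    exact h4.2 h3.1

end DS
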